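import Pool.Agent.helper9.HB_Exp

/-!
# HB-E5 : existence of the limit measure
-/

open MeasureTheory ProbabilityTheory Set Filter Topology
open scoped ENNReal NNReal

namespace Pool.Agent.helper9.HB
open Pool.Agent.helper23.HB

theorem tendsto_tail {A : ℕ → ℝ≥0∞} (h : ∑' j, A j ≠ ∞) :
    Tendsto (fun m : ℕ => ∑' j : ℕ, ind (m ≤ j) * A j) atTop (𝓝 0) := by
  refine (ENNReal.tendsto_sum_nat_add A h).congr fun m => ?_
  have h1 := Summable.sum_add_tsum_nat_add' (f := fun j => ind (m ≤ j) * A j) (k := m)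
    ENNReal.summable
  rw [← h1, Finset.sum_eq_zero, zero_add]
  · apply tsum_congr
    intro k
    rw [ind_true (by omega), one_mul]
  · intro j hj
    rw [Finset.mem_range] at hj
    rw [ind_false (by omega), zero_mul]

theorem osc_le {o s : ℝ} (h0 : 0 ≤ o) (h2 : o ≤ 2) (hs : 0 < s) (hs1 : s ≤ 1) :
    o ≤ 2 * o ^ s := by
  have h3 : (o / 2) ^ (1 : ℝ) ≤ (o / 2) ^ s :=
    Real.rpow_le_rpow_of_exponent_ge' (by linarith) (by linarith) hs.le hs1
  rw [Real.rpow_one, Real.div_rpow h0 (by norm_num)] at h3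
  have h4 : (1 : ℝ) ≤ 2 ^ s := Real.one_le_rpow (by norm_num) hs.le
  have h5 : o ^ s / 2 ^ s ≤ o ^ s := div_le_self (by positivity) h4
  linarith

theorem z_le {z a s : ℝ} (h0 : 0 ≤ z) (h1 : z ≤ 1) (h2 : z ≤ 2 * Real.exp (-a)) (hs : 0 < s)
    (hs1 : s ≤ 1) : z ≤ 2 * Real.exp (-s * a) := by
  have h3 : z ^ (1 : ℝ) ≤ z ^ s := Real.rpow_le_rpow_of_exponent_ge' h0 h1 hs.le hs1
  rw [Real.rpow_one] at h3
  have h4 : z ^ s ≤ (2 * Real.exp (-a)) ^ s := Real.rpow_le_rpow h0 h2 hs.le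
  rw [Real.mul_rpow (by norm_num) (Real.exp_pos _).le, ← Real.exp_mul] at h4
  have h5 : (2 : ℝ) ^ s ≤ 2 := by
    calc (2 : ℝ) ^ s ≤ 2 ^ (1 : ℝ) := Real.rpow_le_rpow_of_exponent_le (by norm_num) hs1
      _ = 2 := Real.rpow_one 2
  have h6 : -a * s = -s * a := by ring
  rw [h6] at h4
  have h7 := Real.exp_pos (-s * a)
  nlinarith

theorem bmp_root {Ω : Type} [MeasurableSpace Ω] {P : Measure Ω} {β lam : ℝ} (S : Sys β lam P) :
    BMp P (fun ω => (S.B ω [] : ℝ → ℝ)) where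
  cont := fun ω => (S.B ω []).continuous
  meas := fun t => (measurable_pth_apply t).comp (S.noiseB.meas [])
  bm := S.noiseB.bm []

/-- bound of the displacement -/
theorem path_F (hSYS : St_SYS) (hRAD : St_RAD) {Ω : Type} [MeasurableSpace Ω] {P : Measure Ω}
    [IsProbabilityMeasure P] {β lam : ℝ} (hlam : -1 / 2 < lam) (S : Sys β lam P) (ω : Ω)
    {s : ℝ} (hs : 0 < s) (hs1 : s ≤ 1) {m : ℕ} {t : ℝ} (hmt : (m : ℝ) ≤ t)
    {v v' : Lab} (hv : v ∈ Alive (S.T ω) t) (hv' : v' ∈ Alive (S.T ω) ((⌊t⌋₊ : ℝ) + 1))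
    (hvv : v <:+ v') :
    ‖S.Z ω v t - S.D ω (anc (S.T ω) m v) m‖ₑ + ‖S.D ω v t - S.D ω (anc (S.T ω) m v) m‖ₑ ≤
      ∑ j ∈ Finset.Icc m ⌊t⌋₊,
        (4 * ENNReal.ofReal (S.osc ω (anc (S.T ω) ((j : ℝ) + 1) v') j) ^ s +
          2 * ENNReal.ofReal (Real.exp (-s * (Yk (lam + 1 / 2)
            (blk 1 (line (S.T ω) (S.B ω) (anc (S.T ω) ((j : ℝ) + 1) v'))) j -
            (blk 1 (line (S.T ω) (S.B ω) (anc (S.T ω) ((j : ℝ) + 1) v')) j).2)))) := by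
  have ht0 : 0 ≤ t := (Nat.cast_nonneg m).trans hmt
  have hpos := ((hSYS Ω P β lam S).1 ω).pos
  have hosc := (hSYS Ω P β lam S).2.2.2.2.2.2.2.2
  have h1 := path_D hSYS S ω hmt hv hv' hvv
  obtain ⟨h2, h3⟩ := path_Z hSYS hRAD hlam S ω ht0 hv hvv
  have h4 := z_le (norm_nonneg _) h2 h3 hs hs1
  set J := ⌊t⌋₊ with hJ
  have hmJ : m ≤ J := Nat.le_floor hmt
  rw [Finset.sum_add_distrib]
  have hx : ‖S.D ω v t - S.D ω (anc (S.T ω) m v) m‖ₑ ≤ ∑ j ∈ Finset.Icc m J,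
      2 * ENNReal.ofReal (S.osc ω (anc (S.T ω) ((j : ℝ) + 1) v') j) ^ s := by
    rw [← ofReal_norm]
    refine (ENNReal.ofReal_le_ofReal h1).trans ?_
    rw [ENNReal.ofReal_sum_of_nonneg fun j _ => (hosc ω _ j).1]
    refine Finset.sum_le_sum fun j _ => ?_
    obtain ⟨o1, o2⟩ := hosc ω (anc (S.T ω) ((j : ℝ) + 1) v') j
    rw [ENNReal.ofReal_rpow_of_nonneg o1 hs.le]
    have h5 := ENNReal.ofReal_le_ofReal (osc_le o1 o2 hs hs1)
    rwa [ENNReal.ofReal_mul (by norm_num), ENNReal.ofReal_ofNat] at h5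
  have hz : ‖S.Z ω v t - S.D ω v t‖ₑ ≤ ∑ j ∈ Finset.Icc m J,
      2 * ENNReal.ofReal (Real.exp (-s * (Yk (lam + 1 / 2)
            (blk 1 (line (S.T ω) (S.B ω) (anc (S.T ω) ((j : ℝ) + 1) v'))) j -
            (blk 1 (line (S.T ω) (S.B ω) (anc (S.T ω) ((j : ℝ) + 1) v')) j).2))) := by
    rw [← ofReal_norm]
    refine (ENNReal.ofReal_le_ofReal h4).trans ?_
    rw [ENNReal.ofReal_mul (by norm_num), ENNReal.ofReal_ofNat]
    have h6 := Finset.single_le_sum (f := fun j : ℕ => 2 * ENNReal.ofReal (Real.exp (-s *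
      (Yk (lam + 1 / 2) (blk 1 (line (S.T ω) (S.B ω) (anc (S.T ω) ((j : ℝ) + 1) v'))) j -
            (blk 1 (line (S.T ω) (S.B ω) (anc (S.T ω) ((j : ℝ) + 1) v')) j).2))))
      (fun _ _ => bot_le) (Finset.mem_Icc.2 ⟨hmJ, le_rfl⟩ : J ∈ Finset.Icc m J)
    rwa [anc_last hpos hv'] at h6
  have h7 : ‖S.Z ω v t - S.D ω (anc (S.T ω) m v) m‖ₑ ≤
      ‖S.Z ω v t - S.D ω v t‖ₑ + ‖S.D ω v t - S.D ω (anc (S.T ω) m v) m‖ₑ := by
    refine le_trans (le_of_eq ?_) (enorm_add_le _ _)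
    congr 1
    ring
  calc ‖S.Z ω v t - S.D ω (anc (S.T ω) m v) m‖ₑ + ‖S.D ω v t - S.D ω (anc (S.T ω) m v) m‖ₑ
      ≤ (‖S.Z ω v t - S.D ω v t‖ₑ + ‖S.D ω v t - S.D ω (anc (S.T ω) m v) m‖ₑ) +
        ‖S.D ω v t - S.D ω (anc (S.T ω) m v) m‖ₑ := add_le_add h7 le_rfl
    _ = 2 * ‖S.D ω v t - S.D ω (anc (S.T ω) m v) m‖ₑ + ‖S.Z ω v t - S.D ω v t‖ₑ := by ring
    _ ≤ _ := by
      refine add_le_add ?_ hz
      refine (mul_le_mul_right hx 2).trans (le_of_eq ?_)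
      rw [Finset.mul_sum]
      refine Finset.sum_congr rfl fun j _ => ?_
      ring

theorem mE5 (hE5D : St_E5D) (hPT : St_PT) (hSYS : St_SYS) (hMSYS : St_MSYS) (hOSC : St_OSC)
    (hM21 : St_M21) (hSUM3 : St_SUM3) (hWT : St_WT) (hCNT : St_CNT) (hPOS : St_POS)
    (hRAD : St_RAD) : St_E5 := by
  intro Ω _ P _ β lam hβ hlam S
  have hc : 0 < lam + 1 / 2 := by linarith
  obtain ⟨s, hs, hs1, hsc⟩ : ∃ s : ℝ, 0 < s ∧ s ≤ 1 ∧ s ≤ lam + 1 / 2 :=
    ⟨min 1 (lam + 1 / 2), lt_min one_pos hc, min_le_left _ _, min_le_right _ _⟩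
  set δ : ℝ := (lam + 1 / 2) * s - s ^ 2 / 2 with hδ
  have hδ0 : 0 < δ := by rw [hδ]; nlinarith [mul_pos hs hc, mul_pos hs hs]
  obtain ⟨C1, hC1, h1⟩ := exp_OSC hOSC hMSYS hWT hβ hlam S hs hs1
  obtain ⟨C2, hC2, h2⟩ := exp_M21 hM21 hWT hβ S
  obtain ⟨C3, hC3, h3, -⟩ := hSUM3 Ω P _ (bmp_root S) (lam + 1 / 2) 0 s hc le_rfl hs
  -- the block functional
  set Fj : ℕ → (ℕ → ℝ × ℝ) → ℝ≥0∞ := fun j x => ENNReal.ofReal (Real.exp
      (-s * (Yk (lam + 1 / 2) x j - (x j).2))) with hFj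
  have hFm : ∀ j, Measurable (Fj j) := by
    intro j
    refine (Real.measurable_exp.comp ?_).ennreal_ofReal
    exact ((measurable_Yk _ j).sub (measurable_snd.comp (measurable_pi_apply j))).const_mul _
  have hE : ∀ j : ℕ, ∫⁻ ω, Fj j (blk 1 (S.B ω [])) ∂P ≤ C3 * ENNReal.ofReal (Real.exp (-δ) ^ j) := by
    intro j
    have h4 := h3 0 j (Nat.zero_le j)
    refine le_trans (le_of_eq ?_) (h4.trans (le_of_eq ?_))
    · apply lintegral_congr
      intro ω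
      rw [ind_true (by simp), one_mul]
    · rw [← Real.exp_nat_mul]
      congr 3
      rw [hδ]
      push_cast
      ring
  set A : Ω → ℕ → ℝ≥0∞ := fun ω j => ENNReal.ofReal (Real.exp (-β * ((j : ℝ) + 1))) *
          ∑' u : Lab, ind (u ∈ Alive (S.T ω) ((j : ℝ) + 1)) *
            (4 * ENNReal.ofReal (S.osc ω u j) ^ s +
              2 * Fj j (blk 1 (line (S.T ω) (S.B ω) u))) * wt β (S.T ω) u with hA
  have hosc := (hMSYS Ω P β lam S).2.2.2.2.2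
  have hT : Measurable S.T := measurable_pi_lambda _ S.life.meas
  have hm1 : ∀ (j : ℕ) (u : Lab), Measurable fun ω => ind (u ∈ Alive (S.T ω) ((j : ℝ) + 1)) *
      (1 * ENNReal.ofReal (S.osc ω u j) ^ s) * wt β (S.T ω) u := by
    intro j u
    exact (((measurable_ind (measurableSet_Alive_left u _)).comp hT).mul
      (measurable_const.mul ((hosc u j).ennreal_ofReal.pow_const s))).mul
        ((measurable_wt β u).comp hT)
  have hm2 : ∀ (j : ℕ) (u : Lab), Measurable fun ω => ind (u ∈ Alive (S.T ω) ((j : ℝ) + 1)) *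
      Fj j (blk 1 (line (S.T ω) (S.B ω) u)) * wt β (S.T ω) u := by
    intro j u
    exact (((measurable_ind (measurableSet_Alive_left u _)).comp hT).mul
      ((hFm j).comp ((measurable_blk_line 1 u).comp (measTB S)))).mul
        ((measurable_wt β u).comp hT)
  have hAeq : ∀ ω j, A ω j =
      4 * (ENNReal.ofReal (Real.exp (-β * ((j : ℝ) + 1))) *
        ∑' u : Lab, ind (u ∈ Alive (S.T ω) ((j : ℝ) + 1)) *
            (1 * ENNReal.ofReal (S.osc ω u j) ^ s) * wt β (S.T ω) u) +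
      2 * (ENNReal.ofReal (Real.exp (-β * ((j : ℝ) + 1))) *
        ∑' u : Lab, ind (u ∈ Alive (S.T ω) ((j : ℝ) + 1)) *
            Fj j (blk 1 (line (S.T ω) (S.B ω) u)) * wt β (S.T ω) u) := by
    intro ω j
    have key : ∀ a b : Lab → ℝ≥0∞, 4 * ∑' u, a u + 2 * ∑' u, b u = ∑' u, (4 * a u + 2 * b u) := by
      intro a b
      rw [ENNReal.tsum_add, ENNReal.tsum_mul_left, ENNReal.tsum_mul_left]
    simp only [hA]
    rw [mul_left_comm 4, mul_left_comm 2, ← mul_add, key]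
    congr 1
    apply tsum_congr
    intro u
    ring
  have hAm1 : ∀ j : ℕ, Measurable fun ω => ENNReal.ofReal (Real.exp (-β * ((j : ℝ) + 1))) *
        ∑' u : Lab, ind (u ∈ Alive (S.T ω) ((j : ℝ) + 1)) *
            (1 * ENNReal.ofReal (S.osc ω u j) ^ s) * wt β (S.T ω) u :=
    fun j => Measurable.const_mul (Measurable.tsum (hm1 j)) _
  have hAm2 : ∀ j : ℕ, Measurable fun ω => ENNReal.ofReal (Real.exp (-β * ((j : ℝ) + 1))) *
        ∑' u : Lab, ind (u ∈ Alive (S.T ω) ((j : ℝ) + 1)) *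
            Fj j (blk 1 (line (S.T ω) (S.B ω) u)) * wt β (S.T ω) u :=
    fun j => Measurable.const_mul (Measurable.tsum (hm2 j)) _
  have hAm : ∀ j, Measurable fun ω => A ω j := by
    intro j
    simp_rw [hAeq]
    exact ((hAm1 j).const_mul 4).add ((hAm2 j).const_mul 2)
  have hAi : ∀ j, ∫⁻ ω, A ω j ∂P ≤
      (4 * (C1 * C3) + 2 * (C2 * C3)) * ENNReal.ofReal (Real.exp (-δ) ^ j) := by
    intro j
    simp_rw [hAeq]
    rw [lintegral_add_left ((hAm1 j).const_mul 4), lintegral_const_mul _ (hAm1 j),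
      lintegral_const_mul _ (hAm2 j)]
    have e1 := h1 j (fun _ => 1) measurable_const
    have e2 := h2 j (Fj j) (hFm j)
    simp only [one_mul] at e1 ⊢
    have e3 := e1.trans (mul_le_mul_right (hE j) C1)
    have e4 := e2.trans (mul_le_mul_right (hE j) C2)
    calc _ ≤ 4 * (C1 * (C3 * ENNReal.ofReal (Real.exp (-δ) ^ j))) +
          2 * (C2 * (C3 * ENNReal.ofReal (Real.exp (-δ) ^ j))) :=
          add_le_add (mul_le_mul_right e3 4) (mul_le_mul_right e4 2)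
      _ = _ := by ring
  have hsum : ∑' j, ∫⁻ ω, A ω j ∂P ≠ ∞ := by
    refine ne_top_of_le_ne_top ?_ (ENNReal.tsum_le_tsum hAi)
    rw [ENNReal.tsum_mul_left]
    refine ENNReal.mul_ne_top ?_ ?_
    · exact ENNReal.add_ne_top.2 ⟨ENNReal.mul_ne_top (by norm_num) (ENNReal.mul_ne_top hC1 hC3),
        ENNReal.mul_ne_top (by norm_num) (ENNReal.mul_ne_top hC2 hC3)⟩
    · have h5 : Real.exp (-δ) < 1 := by rw [Real.exp_lt_one_iff]; linarith
      exact (summable_geometric_of_lt_one (Real.exp_pos _).le h5).tsum_ofReal_ne_top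
  rw [← lintegral_tsum fun j => (hAm j).aemeasurable] at hsum
  filter_upwards [ae_lt_top (Measurable.tsum hAm) hsum, (hCNT Ω P β S.T hβ S.life).2,
    hPOS Ω P β S.T hβ S.life] with ω ha hne hpos
  obtain ⟨hrad, -, hD, hZ, -, hD1, hZD, -, -⟩ := hSYS Ω P β lam S
  refine hE5D β (S.T ω) (S.Z ω) (S.D ω) hβ hne hpos
    (fun u t ht => ⟨hD1 ω u t, (hZD ω u t ht).1⟩)
    ⟨fun m => ENNReal.ofReal (Real.exp β) * ∑' j : ℕ, ind (m ≤ j) * A ω j, ?_, ?_⟩
  · have := ENNReal.Tendsto.const_mul (a := ENNReal.ofReal (Real.exp β)) (tendsto_tail ha.ne)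
      (Or.inr ENNReal.ofReal_ne_top)
    rwa [mul_zero] at this
  · intro m t hmt
    refine (hPT β (S.T ω) m t (fun u j => 4 * ENNReal.ofReal (S.osc ω u j) ^ s +
              2 * Fj j (blk 1 (line (S.T ω) (S.B ω) u)))
      (fun v => ‖S.Z ω v t - S.D ω (anc (S.T ω) m v) m‖ₑ +
        ‖S.D ω v t - S.D ω (anc (S.T ω) m v) m‖ₑ) hβ hne hmt ?_)
    intro v hv v' hv' hvv
    exact path_F hSYS hRAD hlam S ω hs hs1 hmt hv hv' hvv

end Pool.Agent.helper9.HB
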