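import Pool.Agent.helper23.HB.Stmts

/-!
# HB-MART : convergence of the normalised population, integrability of the maximal function
-/

open MeasureTheory ProbabilityTheory Set Filter Topology
open scoped ENNReal NNReal

namespace Pool.Agent.helper9.HB
open Pool.Agent.helper23.HB

/-! ## deterministic facts -/

theorem cnt_eq_ncard {τ : Lab → ℝ} (h : NE τ) (t : ℝ) :
    cnt τ t = ((Alive τ t).ncard : ℝ≥0∞) := by
  classical
  have hf := h.finite_Alive t
  unfold cnt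
  rw [tsum_eq_sum (s := hf.toFinset)]
  · rw [Finset.sum_congr rfl (g := fun _ => (1 : ℝ≥0∞))]
    · rw [Finset.sum_const, Set.ncard_eq_toFinset_card _ hf, nsmul_eq_mul, mul_one]
    · intro v hv
      rw [Set.Finite.mem_toFinset] at hv
      exact ind_true hv
  · intro v hv
    rw [Set.Finite.mem_toFinset] at hv
    exact ind_false hv

theorem ncard_mono {τ : Lab → ℝ} (h : NE τ) {s t : ℝ} (hst : s ≤ t) :
    (Alive τ s).ncard ≤ (Alive τ t).ncard := by
  classical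
  have hex : ∀ u : Lab, ∃ v : Lab, u ∈ Alive τ s → v ∈ Alive τ t ∧ anc τ s v = u := by
    intro u
    by_cases hu : u ∈ Alive τ s
    · obtain ⟨p, hp⟩ := h.exists_desc hst hu
      exact ⟨p ++ u, fun _ => ⟨hp, anc_append h.1 hu p⟩⟩
    · exact ⟨u, fun h' => absurd h' hu⟩
  choose f hf using hex
  refine Set.ncard_le_ncard_of_injOn f (fun u hu => (hf u hu).1) ?_ (h.finite_Alive t)
  intro u hu v hv huv
  rw [← (hf u hu).2, ← (hf v hv).2, huv]

/-! ## moments -/

section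
variable {Ω : Type} [MeasurableSpace Ω] {P : Measure Ω} [IsProbabilityMeasure P]
    {β : ℝ} {T : Ω → Lab → ℝ}

theorem measT (hT : Life β P T) : Measurable T := measurable_pi_lambda _ hT.meas

/-- real version of the normalised number of particles -/
noncomputable def Yr (β : ℝ) (T : Ω → Lab → ℝ) (t : ℝ) (ω : Ω) : ℝ := (Xt β (T ω) t).toReal

theorem meas_Xt (hT : Life β P T) (t : ℝ) : Measurable fun ω => Xt β (T ω) t :=
  (measurable_Xt β t).comp (measT hT)

theorem meas_Yr (hT : Life β P T) (t : ℝ) : Measurable (Yr β T t) :=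
  (meas_Xt hT t).ennreal_toReal

theorem Xt_ne_top {τ : Lab → ℝ} (h : NE τ) (t : ℝ) : Xt β τ t ≠ ∞ := by
  unfold Xt
  rw [cnt_eq_ncard h]
  exact ENNReal.mul_ne_top ENNReal.ofReal_ne_top (ENNReal.natCast_ne_top _)

theorem Yr_eq {ω : Ω} (h : NE (T ω)) (t : ℝ) :
    Yr β T t ω = Real.exp (-β * t) * ((Alive (T ω) t).ncard : ℝ) := by
  unfold Yr Xt
  rw [cnt_eq_ncard h, ENNReal.toReal_mul, ENNReal.toReal_ofReal (Real.exp_pos _).le,
    ENNReal.toReal_natCast]

theorem Yr_nonneg (t : ℝ) (ω : Ω) : 0 ≤ Yr β T t ω := ENNReal.toReal_nonneg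

theorem lint_Xt (hCNT : St_CNT) (hβ : 0 < β) (hT : Life β P T) {t : ℝ} (ht : 0 ≤ t) :
    ∫⁻ ω, Xt β (T ω) t ∂P = 1 := by
  unfold Xt
  have hm : Measurable fun ω => cnt (T ω) t := (measurable_cnt_left t).comp (measT hT)
  rw [lintegral_const_mul _ hm,
    (hCNT Ω P β T hβ hT).1 t ht, ← ENNReal.ofReal_mul (Real.exp_pos _).le, ← Real.exp_add]
  simp

theorem lint_Xt_Xt (hMOM : St_MOM) (hβ : 0 < β) (hT : Life β P T) {s t : ℝ} (hs : 0 ≤ s)
    (hst : s ≤ t) : ∫⁻ ω, Xt β (T ω) s * Xt β (T ω) t ∂P =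
      ENNReal.ofReal (2 - Real.exp (-β * s)) := by
  have h1 : ∀ ω, Xt β (T ω) s * Xt β (T ω) t =
      ENNReal.ofReal (Real.exp (-β * s) * Real.exp (-β * t)) * (cnt (T ω) s * cnt (T ω) t) := by
    intro ω
    unfold Xt
    rw [ENNReal.ofReal_mul (Real.exp_pos _).le]
    ring
  simp_rw [h1]
  have hm : Measurable fun ω => cnt (T ω) s * cnt (T ω) t :=
    ((measurable_cnt_left s).comp (measT hT)).mul ((measurable_cnt_left t).comp (measT hT))
  rw [lintegral_const_mul _ hm, hMOM Ω P β T hβ hT s t hs hst,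
    ← ENNReal.ofReal_mul (by positivity)]
  congr 1
  have e1 : Real.exp (-β * t) * Real.exp (β * t) = 1 := by rw [← Real.exp_add]; simp
  have e2 : Real.exp (-β * s) * Real.exp (-β * t) * Real.exp (β * (s + t)) = 1 := by
    rw [← Real.exp_add, ← Real.exp_add]; ring_nf; simp
  calc Real.exp (-β * s) * Real.exp (-β * t) *
        (Real.exp (β * t) + 2 * Real.exp (β * (s + t)) * (1 - Real.exp (-β * s)))
      = Real.exp (-β * s) * (Real.exp (-β * t) * Real.exp (β * t)) +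
        2 * (Real.exp (-β * s) * Real.exp (-β * t) * Real.exp (β * (s + t))) *
          (1 - Real.exp (-β * s)) := by ring
    _ = _ := by rw [e1, e2]; ring

theorem int_Yr_Yr (hMOM : St_MOM) (hβ : 0 < β) (hT : Life β P T) {s t : ℝ} (hs : 0 ≤ s)
    (hst : s ≤ t) : Integrable (fun ω => Yr β T s ω * Yr β T t ω) P ∧
      ∫ ω, Yr β T s ω * Yr β T t ω ∂P = 2 - Real.exp (-β * s) := by
  have h0 := lint_Xt_Xt hMOM hβ hT hs hst
  have hm : Measurable fun ω => Xt β (T ω) s * Xt β (T ω) t := (meas_Xt hT s).mul (meas_Xt hT t)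
  have h1 : ∫⁻ ω, Xt β (T ω) s * Xt β (T ω) t ∂P ≠ ∞ := by rw [h0]; exact ENNReal.ofReal_ne_top
  have h2 : (fun ω => Yr β T s ω * Yr β T t ω) =
      fun ω => (Xt β (T ω) s * Xt β (T ω) t).toReal := by
    funext ω; rw [ENNReal.toReal_mul]; rfl
  rw [h2]
  refine ⟨integrable_toReal_of_lintegral_ne_top hm.aemeasurable h1, ?_⟩
  rw [integral_toReal hm.aemeasurable (ae_lt_top hm h1), h0, ENNReal.toReal_ofReal]
  have : Real.exp (-β * s) ≤ 1 := by
    rw [Real.exp_le_one_iff]; nlinarith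
  linarith

theorem int_diff_sq (hMOM : St_MOM) (hβ : 0 < β) (hT : Life β P T) {s t : ℝ} (hs : 0 ≤ s)
    (hst : s ≤ t) : Integrable (fun ω => (Yr β T t ω - Yr β T s ω) ^ 2) P ∧
      ∫ ω, (Yr β T t ω - Yr β T s ω) ^ 2 ∂P = Real.exp (-β * s) - Real.exp (-β * t) := by
  obtain ⟨i1, e1⟩ := int_Yr_Yr hMOM hβ hT hs hst
  obtain ⟨i2, e2⟩ := int_Yr_Yr hMOM hβ hT hs le_rfl
  obtain ⟨i3, e3⟩ := int_Yr_Yr hMOM hβ hT (hs.trans hst) le_rfl
  have h2 : (fun ω => (Yr β T t ω - Yr β T s ω) ^ 2) =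
      fun ω => (Yr β T t ω * Yr β T t ω - 2 * (Yr β T s ω * Yr β T t ω)) +
        Yr β T s ω * Yr β T s ω := by
    funext ω; ring
  rw [h2]
  have i31 : Integrable (fun ω => Yr β T t ω * Yr β T t ω - 2 * (Yr β T s ω * Yr β T t ω)) P :=
    i3.sub (i1.const_mul 2)
  refine ⟨i31.add i2, ?_⟩
  rw [integral_add i31 i2, integral_sub i3 (i1.const_mul 2),
    integral_const_mul, e1, e2, e3]
  ring

theorem lint_diff (hMOM : St_MOM) (hβ : 0 < β) (hT : Life β P T) {s t : ℝ} (hs : 0 ≤ s)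
    (hst : s ≤ t) : ∫⁻ ω, ‖Yr β T t ω - Yr β T s ω‖ₑ ∂P ≤
      ENNReal.ofReal (Real.exp (-(β * s / 2))) := by
  obtain ⟨i1, e1⟩ := int_diff_sq hMOM hβ hT hs hst
  set a : ℝ := Real.exp (-(β * s / 2)) with ha
  have hapos : 0 < a := Real.exp_pos _
  have haa : a * a = Real.exp (-β * s) := by rw [ha, ← Real.exp_add]; ring_nf
  have hb : ∀ ω, ‖Yr β T t ω - Yr β T s ω‖ ≤
      (a⁻¹ * (Yr β T t ω - Yr β T s ω) ^ 2 + a) / 2 := by
    intro ω
    set y := Yr β T t ω - Yr β T s ω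
    rw [Real.norm_eq_abs]
    have h1 : 0 ≤ a⁻¹ * (|y| - a) ^ 2 := by positivity
    have h2 : a⁻¹ * (|y| - a) ^ 2 = a⁻¹ * y ^ 2 - 2 * |y| + a := by
      rw [sub_sq, sq_abs]
      field_simp
    rw [h2] at h1
    linarith
  have i2 : Integrable (fun ω => (a⁻¹ * (Yr β T t ω - Yr β T s ω) ^ 2 + a) / 2) P :=
    ((i1.const_mul _).add (integrable_const _)).div_const 2
  have i3 : Integrable (fun ω => Yr β T t ω - Yr β T s ω) P :=
    i2.mono' ((meas_Yr hT t).sub (meas_Yr hT s)).aestronglyMeasurable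
      (Eventually.of_forall hb)
  rw [← ofReal_integral_norm_eq_lintegral_enorm i3]
  apply ENNReal.ofReal_le_ofReal
  calc ∫ ω, ‖Yr β T t ω - Yr β T s ω‖ ∂P
      ≤ ∫ ω, (a⁻¹ * (Yr β T t ω - Yr β T s ω) ^ 2 + a) / 2 ∂P :=
        integral_mono i3.norm i2 hb
    _ = (a⁻¹ * (Real.exp (-β * s) - Real.exp (-β * t)) + a) / 2 := by
        rw [integral_div, integral_add (i1.const_mul _) (integrable_const _),
          integral_const_mul, e1]
        simp
    _ ≤ (a⁻¹ * (a * a) + a) / 2 := by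
        have h3 : Real.exp (-β * s) - Real.exp (-β * t) ≤ a * a := by
          rw [haa]; have := Real.exp_pos (-β * t); linarith
        have h4 : 0 < a⁻¹ := by positivity
        have := mul_le_mul_of_nonneg_left h3 h4.le
        linarith
    _ = a := by field_simp; ring

/-! ## convergence along grids -/

theorem lint_grid (hMOM : St_MOM) (hβ : 0 < β) (hT : Life β P T) {h : ℝ} (hh : 0 < h) :
    ∫⁻ ω, ∑' n : ℕ, ‖Yr β T (((n + 1 : ℕ) : ℝ) * h) ω - Yr β T ((n : ℝ) * h) ω‖ₑ ∂P ≠ ∞ := by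
  have hm : ∀ n : ℕ, AEMeasurable (fun ω =>
      ‖Yr β T (((n + 1 : ℕ) : ℝ) * h) ω - Yr β T ((n : ℝ) * h) ω‖ₑ) P :=
    fun n => ((meas_Yr hT _).sub (meas_Yr hT _)).enorm.aemeasurable
  rw [lintegral_tsum hm]
  have h1 : ∀ n : ℕ, ∫⁻ ω, ‖Yr β T (((n + 1 : ℕ) : ℝ) * h) ω - Yr β T ((n : ℝ) * h) ω‖ₑ ∂P ≤
      ENNReal.ofReal (Real.exp (-(β * h / 2)) ^ n) := by
    intro n
    refine (lint_diff hMOM hβ hT (by positivity) ?_).trans ?_
    · push_cast; nlinarith
    · rw [← Real.exp_nat_mul]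
      apply le_of_eq
      congr 2
      ring
  refine ne_top_of_le_ne_top ?_ (ENNReal.tsum_le_tsum h1)
  have h2 : Real.exp (-(β * h / 2)) < 1 := by
    rw [Real.exp_lt_one_iff]
    have : 0 < β * h := by positivity
    linarith
  exact (summable_geometric_of_lt_one (Real.exp_pos _).le h2).tsum_ofReal_ne_top

theorem ae_grid (hMOM : St_MOM) (hβ : 0 < β) (hT : Life β P T) {h : ℝ} (hh : 0 < h) :
    ∀ᵐ ω ∂P, ∃ L : ℝ, Tendsto (fun n : ℕ => Yr β T ((n : ℝ) * h) ω) atTop (𝓝 L) := by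
  have hm : Measurable fun ω => ∑' n : ℕ,
      ‖Yr β T (((n + 1 : ℕ) : ℝ) * h) ω - Yr β T ((n : ℝ) * h) ω‖ₑ :=
    Measurable.tsum fun n => ((meas_Yr hT _).sub (meas_Yr hT _)).enorm
  filter_upwards [ae_lt_top hm (lint_grid hMOM hβ hT hh)] with ω hω
  apply cauchySeq_tendsto_of_complete
  refine cauchySeq_of_edist_le_of_tsum_ne_top _ (fun n => ?_) hω.ne
  rw [edist_comm, edist_eq_enorm_sub]

end

/-! ## convergence along the reals (deterministic) -/

theorem tendsto_real {β : ℝ} (hβ : 0 < β) {τ : Lab → ℝ} (hne : NE τ) (Y : ℝ → ℝ)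
    (hY : ∀ t, Y t = Real.exp (-β * t) * ((Alive τ t).ncard : ℝ)) (L : ℝ)
    (hL : Tendsto (fun n : ℕ => Y n) atTop (𝓝 L))
    (hk : ∀ k : ℕ, ∃ L' : ℝ, Tendsto (fun n : ℕ => Y ((n : ℝ) * (1 / ((k : ℝ) + 1)))) atTop (𝓝 L')) :
    Tendsto Y atTop (𝓝 L) := by
  -- all grids have the same limit
  have hk' : ∀ k : ℕ, Tendsto (fun n : ℕ => Y ((n : ℝ) * (1 / ((k : ℝ) + 1)))) atTop (𝓝 L) := by
    intro k
    obtain ⟨L', hL'⟩ := hk k
    have h1 : Tendsto (fun n : ℕ => n * (k + 1)) atTop atTop :=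
      tendsto_id.atTop_mul_const' (by omega)
    have h2 := hL'.comp h1
    have h3 : ((fun n : ℕ => Y ((n : ℝ) * (1 / ((k : ℝ) + 1)))) ∘ fun n : ℕ => n * (k + 1)) =
        fun n : ℕ => Y n := by
      funext n
      simp only [Function.comp]
      congr 1
      push_cast
      field_simp
    rw [h3] at h2
    rw [tendsto_nhds_unique hL h2]
    exact hL'
  -- the grid points around `t`
  have hfl : ∀ k : ℕ, Tendsto (fun t : ℝ => ⌊t / (1 / ((k : ℝ) + 1))⌋₊) atTop atTop := by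
    intro k
    exact tendsto_nat_floor_atTop.comp (tendsto_id.atTop_div_const (by positivity))
  have hlow : ∀ (k : ℕ) (t : ℝ), 0 ≤ t → Real.exp (-β * (1 / ((k : ℝ) + 1))) *
      Y ((⌊t / (1 / ((k : ℝ) + 1))⌋₊ : ℝ) * (1 / ((k : ℝ) + 1))) ≤ Y t := by
    intro k t ht
    set h : ℝ := 1 / ((k : ℝ) + 1) with hh
    have hhp : 0 < h := by positivity
    set n := ⌊t / h⌋₊ with hn
    have h1 : (n : ℝ) ≤ t / h := Nat.floor_le (by positivity)
    have h2 : t / h < n + 1 := Nat.lt_floor_add_one _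
    rw [le_div_iff₀ hhp] at h1
    rw [div_lt_iff₀ hhp] at h2
    have h3 : ((Alive τ (n * h)).ncard : ℝ) ≤ (Alive τ t).ncard := by
      exact_mod_cast ncard_mono hne h1
    have h4 : Real.exp (-β * h) * Real.exp (-β * (n * h)) ≤ Real.exp (-β * t) := by
      rw [← Real.exp_add]
      apply Real.exp_le_exp.2
      nlinarith
    rw [hY, hY, ← mul_assoc]
    exact mul_le_mul h4 h3 (by positivity) (by positivity)
  have hupp : ∀ (k : ℕ) (t : ℝ), 0 ≤ t → Y t ≤ Real.exp (β * (1 / ((k : ℝ) + 1))) *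
      Y (((⌊t / (1 / ((k : ℝ) + 1))⌋₊ + 1 : ℕ) : ℝ) * (1 / ((k : ℝ) + 1))) := by
    intro k t ht
    set h : ℝ := 1 / ((k : ℝ) + 1) with hh
    have hhp : 0 < h := by positivity
    set n := ⌊t / h⌋₊ with hn
    have h1 : (n : ℝ) ≤ t / h := Nat.floor_le (by positivity)
    have h2 : t / h < n + 1 := Nat.lt_floor_add_one _
    rw [le_div_iff₀ hhp] at h1
    rw [div_lt_iff₀ hhp] at h2
    push_cast
    have h3 : ((Alive τ t).ncard : ℝ) ≤ (Alive τ ((n + 1) * h)).ncard := by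
      exact_mod_cast ncard_mono hne h2.le
    have h4 : Real.exp (-β * t) ≤ Real.exp (β * h) * Real.exp (-β * ((n + 1) * h)) := by
      rw [← Real.exp_add]
      apply Real.exp_le_exp.2
      nlinarith
    rw [hY, hY, ← mul_assoc]
    exact mul_le_mul h4 h3 (by positivity) (by positivity)
  have hh0 : Tendsto (fun k : ℕ => 1 / ((k : ℝ) + 1)) atTop (𝓝 0) :=
    tendsto_one_div_add_atTop_nhds_zero_nat
  rw [tendsto_order]
  constructor
  · intro a ha
    have h1 : Tendsto (fun k : ℕ => Real.exp (-β * (1 / ((k : ℝ) + 1))) * L) atTop (𝓝 L) := by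
      have := ((Real.continuous_exp.tendsto _).comp (hh0.const_mul (-β))).mul_const L
      simpa using this
    obtain ⟨k, hka⟩ := (h1.eventually_const_lt ha).exists
    have h2 := ((hk' k).const_mul (Real.exp (-β * (1 / ((k : ℝ) + 1))))).eventually_const_lt hka
    filter_upwards [(hfl k).eventually h2, eventually_ge_atTop 0] with t h3 h4
    exact h3.trans_le (hlow k t h4)
  · intro b hb
    have h1 : Tendsto (fun k : ℕ => Real.exp (β * (1 / ((k : ℝ) + 1))) * L) atTop (𝓝 L) := by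
      have := ((Real.continuous_exp.tendsto _).comp (hh0.const_mul β)).mul_const L
      simpa using this
    obtain ⟨k, hkb⟩ := (h1.eventually_lt_const hb).exists
    have h2 := (((hk' k).comp (tendsto_add_atTop_nat 1)).const_mul
      (Real.exp (β * (1 / ((k : ℝ) + 1))))).eventually_lt_const hkb
    filter_upwards [(hfl k).eventually h2, eventually_ge_atTop 0] with t h3 h4
    exact (hupp k t h4).trans_lt h3

/-! ## the theorem -/

theorem mMART (hMOM : St_MOM) (hCNT : St_CNT) : St_MART := by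
  intro Ω _ P _ β T hβ hT
  -- the dominating function
  set G : Ω → ℝ≥0∞ := fun ω => ‖Yr β T 0 ω‖ₑ + ∑' n : ℕ,
      ‖Yr β T (((n + 1 : ℕ) : ℝ)) ω - Yr β T (n : ℝ) ω‖ₑ with hG
  have hne := (hCNT Ω P β T hβ hT).2
  have hXY : ∀ᵐ ω ∂P, ∀ t, Xt β (T ω) t = ENNReal.ofReal (Yr β T t ω) := by
    filter_upwards [hne] with ω hω
    intro t
    exact (ENNReal.ofReal_toReal (Xt_ne_top hω t)).symm
  have hmd : ∀ n : ℕ, Measurable fun ω => ‖Yr β T (((n + 1 : ℕ) : ℝ)) ω - Yr β T (n : ℝ) ω‖ₑ :=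
    fun n => ((meas_Yr hT _).sub (meas_Yr hT _)).enorm
  have hGm : Measurable G := (meas_Yr hT 0).enorm.add (Measurable.tsum hmd)
  have hGi : ∫⁻ ω, G ω ∂P ≠ ∞ := by
    rw [hG, lintegral_add_left (meas_Yr hT 0).enorm]
    refine ENNReal.add_ne_top.2 ⟨?_, ?_⟩
    · have h1 : ∫⁻ ω, ‖Yr β T 0 ω‖ₑ ∂P ≤ ∫⁻ ω, Xt β (T ω) 0 ∂P := by
        apply lintegral_mono_ae
        filter_upwards [hXY] with ω hω
        rw [hω 0, Real.enorm_eq_ofReal (Yr_nonneg _ _)]
      rw [lint_Xt hCNT hβ hT le_rfl] at h1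
      exact ne_top_of_le_ne_top ENNReal.one_ne_top h1
    · have := lint_grid hMOM hβ hT (h := 1) one_pos
      simpa only [mul_one] using this
  have hbd : ∀ ω (n : ℕ), ‖Yr β T n ω‖ₑ ≤ G ω := by
    intro ω n
    have h1 : ∀ n : ℕ, ‖Yr β T n ω‖ₑ ≤ ‖Yr β T 0 ω‖ₑ + ∑ k ∈ Finset.range n,
        ‖Yr β T (((k + 1 : ℕ) : ℝ)) ω - Yr β T (k : ℝ) ω‖ₑ := by
      intro n
      induction n with
      | zero => simp
      | succ n ih =>
        rw [Finset.sum_range_succ, ← add_assoc]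
        calc ‖Yr β T ((n + 1 : ℕ) : ℝ) ω‖ₑ
            = ‖Yr β T n ω + (Yr β T ((n + 1 : ℕ) : ℝ) ω - Yr β T n ω)‖ₑ := by ring_nf
          _ ≤ ‖Yr β T n ω‖ₑ + ‖Yr β T ((n + 1 : ℕ) : ℝ) ω - Yr β T n ω‖ₑ := enorm_add_le _ _
          _ ≤ _ := add_le_add ih le_rfl
    exact (h1 n).trans (add_le_add le_rfl (ENNReal.sum_le_tsum _))
  refine ⟨?_, ?_⟩
  · -- integrability of the maximal function
    have h1 : ∫⁻ ω, Ms β (T ω) ∂P ≤ ∫⁻ ω, ENNReal.ofReal (Real.exp β) * G ω ∂P := by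
      apply lintegral_mono_ae
      filter_upwards [hXY] with ω hω
      unfold Ms
      refine mul_le_mul_right (iSup_le fun n => ?_) _
      rw [hω n, ← Real.enorm_eq_ofReal (Yr_nonneg _ _)]
      exact hbd ω n
    rw [lintegral_const_mul _ hGm] at h1
    exact ne_top_of_le_ne_top (ENNReal.mul_ne_top ENNReal.ofReal_ne_top hGi) h1
  · -- the limit
    have hgrid : ∀ᵐ ω ∂P, ∀ k : ℕ, ∃ L' : ℝ,
        Tendsto (fun n : ℕ => Yr β T ((n : ℝ) * (1 / ((k : ℝ) + 1))) ω) atTop (𝓝 L') :=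
      ae_all_iff.2 fun k => ae_grid hMOM hβ hT (by positivity)
    have hgrid0 : ∀ᵐ ω ∂P, ∃ L : ℝ, Tendsto (fun n : ℕ => Yr β T (n : ℝ) ω) atTop (𝓝 L) := by
      filter_upwards [ae_grid hMOM hβ hT (h := 1) one_pos] with ω hω
      simpa only [mul_one] using hω
    obtain ⟨g, hgm, hg⟩ := measurable_limit_of_tendsto_metrizable_ae
      (fun n : ℕ => (meas_Yr hT (n : ℝ)).aemeasurable) hgrid0
    have hg' : ∀ᵐ ω ∂P, Tendsto (fun n : ℕ => Yr β T (n : ℝ) ω) atTop (𝓝 |g ω|) := by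
      filter_upwards [hg] with ω hω
      rwa [abs_of_nonneg (ge_of_tendsto' hω fun n => Yr_nonneg _ _)]
    refine ⟨fun ω => |g ω|, hgm.abs, fun ω => abs_nonneg _, ?_, ?_, ?_⟩
    · refine Integrable.mono' (integrable_toReal_of_lintegral_ne_top hGm.aemeasurable hGi)
        hgm.abs.aestronglyMeasurable ?_
      filter_upwards [hg', ae_lt_top hGm hGi] with ω hω hG2
      rw [Real.norm_eq_abs, abs_abs]
      refine le_of_tendsto' hω fun n => ?_
      have := ENNReal.toReal_mono hG2.ne (hbd ω n)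
      rwa [toReal_enorm, Real.norm_eq_abs, abs_of_nonneg (Yr_nonneg _ _)] at this
    · have h1 := tendsto_integral_of_dominated_convergence (μ := P)
        (F := fun (n : ℕ) ω => Yr β T n ω) (f := fun ω => |g ω|) (fun ω => (G ω).toReal)
        (fun n => (meas_Yr hT _).aestronglyMeasurable)
        (integrable_toReal_of_lintegral_ne_top hGm.aemeasurable hGi) ?_ hg'
      · have h2 : ∀ n : ℕ, ∫ ω, Yr β T n ω ∂P = 1 := by
          intro n
          have h3 := lint_Xt (P := P) hCNT hβ hT (t := (n : ℝ)) (by positivity)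
          have h4 : ∫ ω, Yr β T n ω ∂P = (∫⁻ ω, Xt β (T ω) n ∂P).toReal :=
            integral_toReal (meas_Xt hT _).aemeasurable
              (ae_lt_top (meas_Xt hT _) (by rw [h3]; exact ENNReal.one_ne_top))
          rw [h4, h3, ENNReal.toReal_one]
        simp_rw [h2] at h1
        exact tendsto_nhds_unique h1 tendsto_const_nhds |>.symm ▸ rfl
      · intro n
        filter_upwards [ae_lt_top hGm hGi] with ω hG2
        have := ENNReal.toReal_mono hG2.ne (hbd ω n)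
        rwa [toReal_enorm] at this
    · filter_upwards [hne, hg', hgrid] with ω h1 h2 h3
      have h4 := tendsto_real hβ h1 (fun t => Yr β T t ω) (fun t => Yr_eq h1 t) |g ω| h2 h3
      simpa only [Yr_eq h1] using h4

end Pool.Agent.helper9.HB
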