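import Pool.Agent.helper9.HB_MART

/-!
# HB-POS : the limit of the normalised population is positive, in all subtrees
-/

open MeasureTheory ProbabilityTheory Set Filter Topology
open scoped ENNReal NNReal

namespace Pool.Agent.helper9.HB
open Pool.Agent.helper23.HB

/-- decomposition at the first branching time -/
theorem alive_split {τ : Lab → ℝ} {t : ℝ} (ht : τ [] ≤ t) :
    Alive τ t = (fun p : Lab => p ++ [false]) '' Alive (sh [false] τ) (t - τ []) ∪
      (fun p : Lab => p ++ [true]) '' Alive (sh [true] τ) (t - τ []) := by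
  have key : ∀ (p : Lab) (x : Bool), p ++ [x] ∈ Alive τ t ↔ p ∈ Alive (sh [x] τ) (t - τ []) := by
    intro p x
    rw [← append_mem_Alive]
    have : birth τ [x] + (t - τ []) = t := by
      simp [death]
    rw [this]
  ext v
  constructor
  · intro hv
    rcases List.eq_nil_or_concat v with rfl | ⟨p, x, rfl⟩
    · exfalso
      have := hv.2
      simp only [death, birth_nil, zero_add] at this
      linarith
    · rw [List.concat_eq_append] at hv ⊢
      cases x
      · exact Or.inl ⟨p, (key p false).1 hv, rfl⟩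
      · exact Or.inr ⟨p, (key p true).1 hv, rfl⟩
  · rintro (⟨p, hp, rfl⟩ | ⟨p, hp, rfl⟩)
    · exact (key p false).2 hp
    · exact (key p true).2 hp

theorem ncard_split {τ : Lab → ℝ} (h : NE τ) {t : ℝ} (ht : τ [] ≤ t) :
    (Alive τ t).ncard = (Alive (sh [false] τ) (t - τ [])).ncard +
      (Alive (sh [true] τ) (t - τ [])).ncard := by
  have inj : ∀ x : Bool, Function.Injective (fun p : Lab => p ++ [x]) :=
    fun x p q hpq => List.append_cancel_right hpq
  rw [alive_split ht, Set.ncard_union_eq ?_ (((h.sh [false]).finite_Alive _).image _)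
    (((h.sh [true]).finite_Alive _).image _), Set.ncard_image_of_injective _ (inj false),
    Set.ncard_image_of_injective _ (inj true)]
  rw [Set.disjoint_left]
  rintro _ ⟨p, -, rfl⟩ ⟨q, -, hq⟩
  have := List.append_inj_right' hq rfl
  simp at this

/-- the limit as a measurable functional of the lifetimes -/
noncomputable def Lam (β : ℝ) (τ : Lab → ℝ) : ℝ≥0∞ := limsup (fun n : ℕ => Xt β τ n) atTop

theorem measurable_Lam (β : ℝ) : Measurable (Lam β) :=
  Measurable.limsup fun n => measurable_Xt β (n : ℝ)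

theorem Lam_eq {β : ℝ} {τ : Lab → ℝ} (h : NE τ) {L : ℝ}
    (hL : Tendsto (fun t : ℝ => Real.exp (-β * t) * ((Alive τ t).ncard : ℝ)) atTop (𝓝 L)) :
    Lam β τ = ENNReal.ofReal L := by
  have h1 : ∀ n : ℕ, Xt β τ n =
      ENNReal.ofReal (Real.exp (-β * (n : ℝ)) * ((Alive τ n).ncard : ℝ)) := by
    intro n
    unfold Xt
    rw [cnt_eq_ncard h, ENNReal.ofReal_mul (Real.exp_pos _).le, ENNReal.ofReal_natCast]
  unfold Lam
  simp_rw [h1]
  exact ((ENNReal.continuous_ofReal.tendsto L).comp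
    (hL.comp tendsto_natCast_atTop_atTop)).limsup_eq

theorem pos_root (hMART : St_MART) (hBR : St_BR) (hSHT : St_SHT) (hCNT : St_CNT)
    (Ω : Type) [MeasurableSpace Ω] (P : Measure Ω) [IsProbabilityMeasure P]
    (β : ℝ) (T : Ω → Lab → ℝ) (hβ : 0 < β) (hT : Life β P T) :
    ∀ᵐ ω ∂P, ∃ w : ℝ, 0 < w ∧
      Tendsto (fun t : ℝ => Real.exp (-β * t) * ((Alive (T ω) t).ncard : ℝ)) atTop (𝓝 w) := by
  obtain ⟨-, Xl, hXm, hX0, hXi, hX1, hX⟩ := hMART Ω P β T hβ hT
  have hsub : ∀ x : Bool, ∀ᵐ ω ∂P, ∃ L : ℝ, 0 ≤ L ∧ Tendsto (fun t : ℝ =>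
      Real.exp (-β * t) * ((Alive (sh [x] (T ω)) t).ncard : ℝ)) atTop (𝓝 L) := by
    intro x
    obtain ⟨-, Y, -, hY0, -, -, hY⟩ := hMART Ω P β _ hβ (hSHT Ω P β T hβ hT [x]).1
    filter_upwards [hY] with ω hω
    exact ⟨Y ω, hY0 ω, hω⟩
  have hne := (hCNT Ω P β T hβ hT).2
  -- the limit vanishes iff the limits of the two subtrees vanish
  have hkey : ∀ᵐ ω ∂P, (Lam β (T ω) = 0 ↔ Lam β (sh [false] (T ω)) = 0 ∧
      Lam β (sh [true] (T ω)) = 0) := by
    filter_upwards [hX, hsub false, hsub true, hne] with ω h h0 h1 hn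
    obtain ⟨L0, hL0, h0⟩ := h0
    obtain ⟨L1, hL1, h1⟩ := h1
    rw [Lam_eq hn h, Lam_eq (hn.sh _) h0, Lam_eq (hn.sh _) h1, ENNReal.ofReal_eq_zero,
      ENNReal.ofReal_eq_zero, ENNReal.ofReal_eq_zero]
    have h2 : Tendsto (fun t : ℝ => t - T ω []) atTop atTop :=
      tendsto_atTop_add_const_right _ _ tendsto_id
    have h3 : Tendsto (fun t : ℝ => Real.exp (-β * t) * ((Alive (T ω) t).ncard : ℝ)) atTop
        (𝓝 (Real.exp (-β * T ω []) * (L0 + L1))) := by
      refine (((h0.comp h2).add (h1.comp h2)).const_mul (Real.exp (-β * T ω []))).congr' ?_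
      filter_upwards [eventually_ge_atTop (T ω [])] with t ht
      simp only [Function.comp]
      rw [ncard_split hn ht]
      have e1 : Real.exp (-β * t) = Real.exp (-β * T ω []) * Real.exp (-β * (t - T ω [])) := by
        rw [← Real.exp_add]; ring_nf
      rw [e1]
      push_cast
      ring
    have h4 := tendsto_nhds_unique h h3
    have h5 := Real.exp_pos (-β * T ω [])
    constructor
    · intro h6
      have h7 : L0 + L1 ≤ 0 := by
        by_contra h8
        push Not at h8
        have := mul_pos h5 h8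
        linarith
      constructor <;> linarith
    · rintro ⟨h6, h7⟩
      have h8 : L0 = 0 := le_antisymm h6 hL0
      have h9 : L1 = 0 := le_antisymm h7 hL1
      rw [h4, h8, h9]
      simp
  have hTm : Measurable T := measurable_pi_lambda _ hT.meas
  have hSm : MeasurableSet {τ : Lab → ℝ | Lam β τ = 0} :=
    measurable_Lam β (measurableSet_singleton 0)
  set q : ℝ≥0∞ := ∫⁻ ω, ind (T ω ∈ {τ : Lab → ℝ | Lam β τ = 0}) ∂P with hq
  have hq1 : q ≤ 1 := by
    calc q ≤ ∫⁻ _, 1 ∂P := lintegral_mono fun ω => ind_le_one _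
      _ = 1 := by simp
  have hqq : q = q * q := by
    have hfm : Measurable fun y : (Lab → ℝ) × ℝ => ind (y.1 ∈ {τ : Lab → ℝ | Lam β τ = 0}) :=
      (measurable_ind hSm).comp measurable_fst
    have h1 := hBR Ω P β T hβ hT [] false (fun _ => 1)
      (fun y => ind (y.1 ∈ {τ : Lab → ℝ | Lam β τ = 0}))
      (fun y => ind (y.1 ∈ {τ : Lab → ℝ | Lam β τ = 0})) measurable_const hfm hfm
    simp only [one_mul, Bool.not_false] at h1
    rw [← hq] at h1
    rw [lintegral_const, measure_univ, mul_one] at h1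
    rw [← h1, hq]
    apply lintegral_congr_ae
    filter_upwards [hkey] with ω hω
    rw [← ind_and]
    exact congrArg ind (propext hω)
  have hqn : q ≠ 1 := by
    intro hq1'
    have h1 : ∀ᵐ ω ∂P, T ω ∈ {τ : Lab → ℝ | Lam β τ = 0} := by
      have h2 : q = P (T ⁻¹' {τ : Lab → ℝ | Lam β τ = 0}) := by
        rw [hq]
        simp_rw [ind_mem]
        exact lintegral_indicator_one (hTm hSm)
      rw [h2] at hq1'
      exact (prob_compl_eq_zero_iff (hTm hSm)).2 hq1'
    have h2 : Xl =ᵐ[P] 0 := by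
      filter_upwards [h1, hX, hne] with ω h3 h4 h5
      have h3 : Lam β (T ω) = 0 := h3
      rw [Lam_eq h5 h4, ENNReal.ofReal_eq_zero] at h3
      exact le_antisymm h3 (hX0 ω)
    rw [integral_congr_ae h2] at hX1
    simp at hX1
  have hq0 : q = 0 := by
    by_contra h0
    apply hqn
    have h1 : q * 1 = q * q := by rw [mul_one]; exact hqq
    exact ((ENNReal.mul_right_inj h0 (ne_top_of_le_ne_top ENNReal.one_ne_top hq1)).1 h1).symm
  have him : Measurable fun ω => ind (T ω ∈ {τ : Lab → ℝ | Lam β τ = 0}) :=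
    (measurable_ind hSm).comp hTm
  rw [hq, lintegral_eq_zero_iff him] at hq0
  filter_upwards [hq0, hX, hne] with ω h1 h2 h3
  refine ⟨Xl ω, ?_, h2⟩
  rcases (hX0 ω).lt_or_eq with h4 | h4
  · exact h4
  · exfalso
    have h5 : Lam β (T ω) = 0 := by rw [Lam_eq h3 h2, ← h4]; simp
    have h6 : ind (Lam β (T ω) = 0) = 0 := h1
    rw [ind_true h5] at h6
    exact one_ne_zero h6

theorem mPOS (hMART : St_MART) (hBR : St_BR) (hSHT : St_SHT) (hCNT : St_CNT) : St_POS := by
  intro Ω _ P _ β T hβ hT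
  rw [ae_all_iff]
  intro u
  exact pos_root hMART hBR hSHT hCNT Ω P β _ hβ (hSHT Ω P β T hβ hT u).1

end Pool.Agent.helper9.HB
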