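import Pool.Agent.helper9.HB_E5

/-!
# HB-UM : upper bound for the dimension of the limit measure
-/

open MeasureTheory ProbabilityTheory Set Filter Topology
open scoped ENNReal NNReal

namespace Pool.Agent.helper9.HB
open Pool.Agent.helper23.HB

theorem tsum_ind_shift (A : ℕ → ℝ≥0∞) (m : ℕ) :
    ∑' j : ℕ, ind (m ≤ j) * A j = ∑' k, A (k + m) := by
  have h1 := Summable.sum_add_tsum_nat_add' (f := fun j => ind (m ≤ j) * A j) (k := m)
    ENNReal.summable
  rw [← h1, Finset.sum_eq_zero, zero_add]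
  · apply tsum_congr
    intro k
    rw [ind_true (by omega), one_mul]
  · intro j hj
    rw [Finset.mem_range] at hj
    rw [ind_false (by omega), zero_mul]

theorem sum_rpow_le {ι : Type*} (t : Finset ι) (f : ι → ℝ≥0∞) {s : ℝ} (hs : 0 < s)
    (hs1 : s ≤ 1) : (∑ i ∈ t, f i) ^ s ≤ ∑ i ∈ t, f i ^ s := by
  classical
  induction t using Finset.induction_on with
  | empty => simp [ENNReal.zero_rpow_of_pos hs]
  | insert i t hi ih =>
    rw [Finset.sum_insert hi, Finset.sum_insert hi]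
    exact (ENNReal.rpow_add_le_add_rpow _ _ hs.le hs1).trans (add_le_add le_rfl ih)

/-- bad / good noise at time `n` -/
noncomputable def Bn (ε : ℝ) (n : ℕ) (x : ℕ → ℝ × ℝ) : ℝ≥0∞ :=
  ind (¬(-(ε * n) ≤ ∑ k ∈ Finset.range n, (x k).1))
noncomputable def Gn (ε : ℝ) (n : ℕ) (x : ℕ → ℝ × ℝ) : ℝ≥0∞ :=
  ind (-(ε * n) ≤ ∑ k ∈ Finset.range n, (x k).1)

theorem measSet_noise (ε : ℝ) (n : ℕ) :
    MeasurableSet {x : ℕ → ℝ × ℝ | -(ε * n) ≤ ∑ k ∈ Finset.range n, (x k).1} :=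
  measurableSet_le measurable_const
    (Finset.measurable_sum _ fun k _ => measurable_fst.comp (measurable_pi_apply k))

theorem meas_Gn (ε : ℝ) (n : ℕ) : Measurable (Gn ε n) := measurable_ind (measSet_noise ε n)
theorem meas_Bn (ε : ℝ) (n : ℕ) : Measurable (Bn ε n) := measurable_ind (measSet_noise ε n).compl

theorem path_UM (hSYS : St_SYS) {Ω : Type} [MeasurableSpace Ω] {P : Measure Ω}
    [IsProbabilityMeasure P] {β lam : ℝ} (S : Sys β lam P) (ω : Ω)
    {s a ε : ℝ} (hs : 0 < s) (hs1 : s ≤ 1) {n : ℕ} {t : ℝ} (hnt : (n : ℝ) ≤ t)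
    {v v' : Lab} (hv : v ∈ Alive (S.T ω) t) (hv' : v' ∈ Alive (S.T ω) ((⌊t⌋₊ : ℝ) + 1))
    (hvv : v <:+ v') :
    ind (Real.exp (-a * n) < ‖S.D ω v t - S.D ω (anc (S.T ω) n v) n‖) ≤
      ∑ j ∈ Finset.Icc n ⌊t⌋₊,
        (ind (j = n) * Bn ε n (blk 1 (line (S.T ω) (S.B ω) (anc (S.T ω) ((j : ℝ) + 1) v'))) +
          ENNReal.ofReal (Real.exp (s * a * n)) *
            (Gn ε n (blk 1 (line (S.T ω) (S.B ω) (anc (S.T ω) ((j : ℝ) + 1) v'))) *
              ENNReal.ofReal (S.osc ω (anc (S.T ω) ((j : ℝ) + 1) v') j) ^ s)) := by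
  have hpos := ((hSYS Ω P β lam S).1 ω).pos
  have hosc := (hSYS Ω P β lam S).2.2.2.2.2.2.2.2
  have h1 := path_D hSYS S ω hnt hv hv' hvv
  set J := ⌊t⌋₊ with hJ
  have hnJ : n ≤ J := Nat.le_floor hnt
  set x := ‖S.D ω v t - S.D ω (anc (S.T ω) n v) n‖ with hx
  by_cases hlt : Real.exp (-a * n) < x
  swap
  · rw [ind_false hlt]; exact bot_le
  rw [ind_true hlt]
  have hnoise : ∀ j ∈ Finset.Icc n J, ∑ k ∈ Finset.range n,
      (blk 1 (line (S.T ω) (S.B ω) (anc (S.T ω) ((j : ℝ) + 1) v')) k).1 =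
      ∑ k ∈ Finset.range n, (blk 1 (line (S.T ω) (S.B ω) v') k).1 := by
    intro j hj
    rw [Finset.mem_Icc] at hj
    refine Finset.sum_congr rfl fun k hk => ?_
    rw [Finset.mem_range] at hk
    rw [blk_anc hpos (S.B ω) (lt_of_le_of_lt ?_ hv'.2) (by omega : k ≤ j)]
    have : (j : ℝ) ≤ J := by exact_mod_cast hj.2
    linarith
  rw [Finset.sum_add_distrib]
  by_cases hN : -(ε * n) ≤ ∑ k ∈ Finset.range n, (blk 1 (line (S.T ω) (S.B ω) v') k).1
  · refine le_trans ?_ (le_add_left le_rfl)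
    rw [← Finset.mul_sum]
    have h2 : ∀ j ∈ Finset.Icc n J,
        Gn ε n (blk 1 (line (S.T ω) (S.B ω) (anc (S.T ω) ((j : ℝ) + 1) v'))) *
              ENNReal.ofReal (S.osc ω (anc (S.T ω) ((j : ℝ) + 1) v') j) ^ s =
          ENNReal.ofReal (S.osc ω (anc (S.T ω) ((j : ℝ) + 1) v') j) ^ s := by
      intro j hj
      unfold Gn
      rw [ind_true (by rw [hnoise j hj]; exact hN), one_mul]
    rw [Finset.sum_congr rfl h2]
    have h3 : ENNReal.ofReal x ≤ ∑ j ∈ Finset.Icc n J,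
        ENNReal.ofReal (S.osc ω (anc (S.T ω) ((j : ℝ) + 1) v') j) := by
      rw [← ENNReal.ofReal_sum_of_nonneg fun j _ => (hosc ω _ j).1]
      exact ENNReal.ofReal_le_ofReal h1
    have h4 : ENNReal.ofReal x ^ s ≤ ∑ j ∈ Finset.Icc n J,
        ENNReal.ofReal (S.osc ω (anc (S.T ω) ((j : ℝ) + 1) v') j) ^ s :=
      (ENNReal.rpow_le_rpow h3 hs.le).trans (sum_rpow_le _ _ hs hs1)
    refine le_trans ?_ (mul_le_mul_right h4 _)
    have hx0 : 0 ≤ x := norm_nonneg _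
    rw [ENNReal.ofReal_rpow_of_nonneg hx0 hs.le, ← ENNReal.ofReal_mul (Real.exp_pos _).le,
      ← ENNReal.ofReal_one]
    apply ENNReal.ofReal_le_ofReal
    have h5 : Real.exp (-a * n) ^ s ≤ x ^ s := Real.rpow_le_rpow (Real.exp_pos _).le hlt.le hs.le
    rw [← Real.exp_mul] at h5
    have h6 : Real.exp (s * a * n) * Real.exp (-a * n * s) = 1 := by
      rw [← Real.exp_add]; ring_nf; simp
    calc (1 : ℝ) = Real.exp (s * a * n) * Real.exp (-a * n * s) := h6.symm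
      _ ≤ _ := mul_le_mul_of_nonneg_left h5 (Real.exp_pos _).le
  · refine le_trans ?_ (le_add_right le_rfl)
    have hmem : n ∈ Finset.Icc n J := Finset.mem_Icc.2 ⟨le_rfl, hnJ⟩
    have h6 := Finset.single_le_sum (f := fun j : ℕ => ind (j = n) *
      Bn ε n (blk 1 (line (S.T ω) (S.B ω) (anc (S.T ω) ((j : ℝ) + 1) v'))))
      (fun _ _ => bot_le) hmem
    refine le_trans (le_of_eq ?_) h6
    unfold Bn
    rw [ind_true rfl, ind_true (by rw [hnoise n hmem]; exact hN), one_mul]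

theorem ae_UM (hE3D : St_E3D) (hPT : St_PT) (hSYS : St_SYS) (hMSYS : St_MSYS) (hOSC : St_OSC)
    (hM21 : St_M21) (hSUM3 : St_SUM3) (hWT : St_WT) (hCNT : St_CNT) (hPOS : St_POS)
    (Ω : Type) [MeasurableSpace Ω] (P : Measure Ω) [IsProbabilityMeasure P] (β lam : ℝ)
    (hβ : 0 < β) (hlam : -1 / 2 < lam) (S : Sys β lam P) (sD : ℝ) (hsD : 0 < sD)
    (hsDβ : β < sD * (lam + 1 / 2)) :
    ∀ᵐ ω ∂P, ∀ μ : Measure ℂ, IsLim (S.T ω) (S.D ω) μ → dimM μ ≤ ENNReal.ofReal sD := by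
  have hc : 0 < lam + 1 / 2 := by linarith
  obtain ⟨s, hs, hs1, hsc⟩ : ∃ s : ℝ, 0 < s ∧ s ≤ 1 ∧ s ≤ lam + 1 / 2 :=
    ⟨min 1 (lam + 1 / 2), lt_min one_pos hc, min_le_left _ _, min_le_right _ _⟩
  set δ : ℝ := (lam + 1 / 2) * s - s ^ 2 / 2 with hδ
  have hδ0 : 0 < δ := by rw [hδ]; nlinarith [mul_pos hs hc, mul_pos hs hs]
  obtain ⟨ε, hε, ha⟩ : ∃ ε : ℝ, 0 < ε ∧ β < sD * (lam + 1 / 2 - 2 * ε) := by
    refine ⟨(sD * (lam + 1 / 2) - β) / (4 * sD), by apply div_pos <;> linarith, ?_⟩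
    have : sD * (lam + 1 / 2 - 2 * ((sD * (lam + 1 / 2) - β) / (4 * sD))) =
        (sD * (lam + 1 / 2) + β) / 2 := by field_simp; ring
    rw [this]; linarith
  set a : ℝ := lam + 1 / 2 - 2 * ε with hadef
  obtain ⟨C1, hC1, h1⟩ := exp_OSC hOSC hMSYS hWT hβ hlam S hs hs1
  obtain ⟨C2, hC2, h2⟩ := exp_M21 hM21 hWT hβ S
  obtain ⟨C3, hC3, h3, h3'⟩ := hSUM3 Ω P _ (bmp_root S) (lam + 1 / 2) ε s hc hε.le hs
  have hosc := (hMSYS Ω P β lam S).2.2.2.2.2
  have hT : Measurable S.T := measurable_pi_lambda _ S.life.meas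
  -- the two parts
  set W1 : ℕ → ℕ → Ω → ℝ≥0∞ := fun n j ω => ENNReal.ofReal (Real.exp (-β * ((j : ℝ) + 1))) *
        ∑' u : Lab, ind (u ∈ Alive (S.T ω) ((j : ℝ) + 1)) *
            Bn ε n (blk 1 (line (S.T ω) (S.B ω) u)) * wt β (S.T ω) u with hW1
  set W2 : ℕ → ℕ → Ω → ℝ≥0∞ := fun n j ω => ENNReal.ofReal (Real.exp (-β * ((j : ℝ) + 1))) *
        ∑' u : Lab, ind (u ∈ Alive (S.T ω) ((j : ℝ) + 1)) *
            (Gn ε n (blk 1 (line (S.T ω) (S.B ω) u)) * ENNReal.ofReal (S.osc ω u j) ^ s) *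
              wt β (S.T ω) u with hW2
  set φ : Ω → ℕ → Lab → ℕ → ℝ≥0∞ := fun ω n u j =>
      ind (j = n) * Bn ε n (blk 1 (line (S.T ω) (S.B ω) u)) +
          ENNReal.ofReal (Real.exp (s * a * n)) *
            (Gn ε n (blk 1 (line (S.T ω) (S.B ω) u)) * ENNReal.ofReal (S.osc ω u j) ^ s) with hφ
  have hW1m : ∀ n j, Measurable (W1 n j) := by
    intro n j
    refine Measurable.const_mul (Measurable.tsum fun u => ?_) _
    exact (((measurable_ind (measurableSet_Alive_left u _)).comp hT).mul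
      ((meas_Bn ε n).comp ((measurable_blk_line 1 u).comp (measTB S)))).mul
        ((measurable_wt β u).comp hT)
  have hW2m : ∀ n j, Measurable (W2 n j) := by
    intro n j
    refine Measurable.const_mul (Measurable.tsum fun u => ?_) _
    exact (((measurable_ind (measurableSet_Alive_left u _)).comp hT).mul
      (((meas_Gn ε n).comp ((measurable_blk_line 1 u).comp (measTB S))).mul
        ((hosc u j).ennreal_ofReal.pow_const s))).mul ((measurable_wt β u).comp hT)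
  set Q : ℕ → Ω → ℝ≥0∞ := fun n ω => ENNReal.ofReal (Real.exp β) *
      ∑' j : ℕ, ind (n ≤ j) * (ind (j = n) * W1 n j ω +
        ENNReal.ofReal (Real.exp (s * a * n)) * W2 n j ω) with hQ
  have hin : ∀ n j : ℕ, Measurable fun ω => (ind (j = n) * W1 n j ω +
        ENNReal.ofReal (Real.exp (s * a * n)) * W2 n j ω) := fun n j =>
    ((hW1m n j).const_mul _).add ((hW2m n j).const_mul _)
  have hterm : ∀ n j : ℕ, Measurable fun ω => ind (n ≤ j) * (ind (j = n) * W1 n j ω +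
        ENNReal.ofReal (Real.exp (s * a * n)) * W2 n j ω) := fun n j =>
    (hin n j).const_mul _
  have hQm : ∀ n, Measurable (Q n) := fun n =>
    Measurable.const_mul (Measurable.tsum (hterm n)) _
  set Dc : ℝ≥0∞ := ∑' k : ℕ, ENNReal.ofReal (Real.exp (-δ) ^ k) with hDc
  have hDt : Dc ≠ ∞ := by
    have h5 : Real.exp (-δ) < 1 := by rw [Real.exp_lt_one_iff]; linarith
    exact (summable_geometric_of_lt_one (Real.exp_pos _).le h5).tsum_ofReal_ne_top
  have hI1 : ∀ n j, ∫⁻ ω, W1 n j ω ∂P ≤ C2 * ENNReal.ofReal (Real.exp (-(ε ^ 2 / 2)) ^ n) := by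
    intro n j
    refine (h2 j (Bn ε n) (meas_Bn ε n)).trans (mul_le_mul_right ?_ C2)
    have h4 : ∫⁻ ω, Bn ε n (blk 1 (S.B ω [])) ∂P =
        P {ω | ¬(-(ε * n) ≤ ∑ k ∈ Finset.range n, (blk 1 (S.B ω []) k).1)} := by
      have hms : MeasurableSet {ω : Ω | ¬(-(ε * n) ≤ ∑ k ∈ Finset.range n,
          (blk 1 (S.B ω []) k).1)} :=
        ((measurable_blk_pth 1).comp (S.noiseB.meas [])) (measSet_noise ε n).compl
      rw [← lintegral_indicator_one hms]
      apply lintegral_congr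
      intro ω
      exact ind_mem {ω : Ω | ¬(-(ε * n) ≤ ∑ k ∈ Finset.range n, (blk 1 (S.B ω []) k).1)} ω
    rw [h4]
    refine (h3' n).trans (le_of_eq ?_)
    rw [← Real.exp_nat_mul]
    congr 2
    ring
  have hI2 : ∀ n j, n ≤ j → ∫⁻ ω, W2 n j ω ∂P ≤
      C1 * (C3 * ENNReal.ofReal (Real.exp (-(s * (lam + 1 / 2 - ε) * n) - δ * ((j : ℝ) - n)))) := by
    intro n j hnj
    exact (h1 j (Gn ε n) (meas_Gn ε n)).trans (mul_le_mul_right (h3 n j hnj) C1)
  have hQi : ∀ n, ∫⁻ ω, Q n ω ∂P ≤ ENNReal.ofReal (Real.exp β) *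
      (C2 * ENNReal.ofReal (Real.exp (-(ε ^ 2 / 2)) ^ n) +
        C1 * C3 * Dc * ENNReal.ofReal (Real.exp (-(s * ε)) ^ n)) := by
    intro n
    simp only [hQ]
    rw [lintegral_const_mul _ (Measurable.tsum (hterm n)),
      lintegral_tsum fun j => (hterm n j).aemeasurable]
    refine mul_le_mul_right ?_ _
    have h5 : ∀ j : ℕ, ∫⁻ ω, ind (n ≤ j) * (ind (j = n) * W1 n j ω +
        ENNReal.ofReal (Real.exp (s * a * n)) * W2 n j ω) ∂P ≤
        ind (j = n) * (C2 * ENNReal.ofReal (Real.exp (-(ε ^ 2 / 2)) ^ n)) +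
        ind (n ≤ j) * (C1 * C3 * ENNReal.ofReal (Real.exp (-(s * ε)) ^ n) *
          ENNReal.ofReal (Real.exp (-(δ * ((j : ℝ) - n))))) := by
      intro j
      rw [lintegral_const_mul _ (hin n j),
        lintegral_add_left ((hW1m n j).const_mul _), lintegral_const_mul _ (hW1m n j),
        lintegral_const_mul _ (hW2m n j)]
      by_cases hnj : n ≤ j
      · rw [ind_true hnj, one_mul, one_mul]
        refine add_le_add (mul_le_mul_right (hI1 n j) _) ?_
        refine (mul_le_mul_right (hI2 n j hnj) _).trans (le_of_eq ?_)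
        have e1 : ENNReal.ofReal (Real.exp (s * a * n)) *
            ENNReal.ofReal (Real.exp (-(s * (lam + 1 / 2 - ε) * n) - δ * ((j : ℝ) - n))) =
            ENNReal.ofReal (Real.exp (-(s * ε)) ^ n) *
              ENNReal.ofReal (Real.exp (-(δ * ((j : ℝ) - n)))) := by
          rw [← ENNReal.ofReal_mul (Real.exp_pos _).le, ← ENNReal.ofReal_mul (by positivity),
            ← Real.exp_add, ← Real.exp_nat_mul, ← Real.exp_add]
          congr 2
          rw [hadef]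
          ring
        calc ENNReal.ofReal (Real.exp (s * a * n)) * (C1 * (C3 *
            ENNReal.ofReal (Real.exp (-(s * (lam + 1 / 2 - ε) * n) - δ * ((j : ℝ) - n)))))
            = C1 * C3 * (ENNReal.ofReal (Real.exp (s * a * n)) *
              ENNReal.ofReal (Real.exp (-(s * (lam + 1 / 2 - ε) * n) - δ * ((j : ℝ) - n)))) := by
              ring
          _ = _ := by rw [e1]; ring
      · rw [ind_false hnj, zero_mul]; exact bot_le
    refine (ENNReal.tsum_le_tsum h5).trans ?_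
    rw [ENNReal.tsum_add]
    refine add_le_add (le_of_eq ?_) (le_of_eq ?_)
    · rw [tsum_eq_single n]
      · rw [ind_true rfl, one_mul]
      · intro j hj
        rw [ind_false hj, zero_mul]
    · rw [tsum_ind_shift (fun j => C1 * C3 * ENNReal.ofReal (Real.exp (-(s * ε)) ^ n) *
          ENNReal.ofReal (Real.exp (-(δ * ((j : ℝ) - n))))) n, ENNReal.tsum_mul_left]
      have e2 : ∑' k : ℕ, ENNReal.ofReal (Real.exp (-(δ * (((k + n : ℕ) : ℝ) - n)))) = Dc := by
        rw [hDc]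
        apply tsum_congr
        intro k
        rw [← Real.exp_nat_mul]
        congr 2
        push_cast
        ring
      rw [e2]
      ring
  have hsum : ∑' n, ∫⁻ ω, Q n ω ∂P ≠ ∞ := by
    refine ne_top_of_le_ne_top ?_ (ENNReal.tsum_le_tsum hQi)
    rw [ENNReal.tsum_mul_left, ENNReal.tsum_add, ENNReal.tsum_mul_left, ENNReal.tsum_mul_left]
    refine ENNReal.mul_ne_top ENNReal.ofReal_ne_top (ENNReal.add_ne_top.2 ⟨?_, ?_⟩)
    · refine ENNReal.mul_ne_top hC2 ?_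
      have h5 : Real.exp (-(ε ^ 2 / 2)) < 1 := by rw [Real.exp_lt_one_iff]; nlinarith
      exact (summable_geometric_of_lt_one (Real.exp_pos _).le h5).tsum_ofReal_ne_top
    · refine ENNReal.mul_ne_top (ENNReal.mul_ne_top (ENNReal.mul_ne_top hC1 hC3) hDt) ?_
      have h5 : Real.exp (-(s * ε)) < 1 := by
        rw [Real.exp_lt_one_iff]
        have := mul_pos hs hε
        linarith
      exact (summable_geometric_of_lt_one (Real.exp_pos _).le h5).tsum_ofReal_ne_top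
  rw [← lintegral_tsum fun n => (hQm n).aemeasurable] at hsum
  filter_upwards [ae_lt_top (Measurable.tsum hQm) hsum, (hCNT Ω P β S.T hβ S.life).2,
    hPOS Ω P β S.T hβ S.life] with ω hq hne hpos μ hμ
  obtain ⟨w, hw, hw2⟩ := hpos []
  rw [sh_nil] at hw2
  refine hE3D β a sD w (S.T ω) (S.D ω) μ (fun n => Q n ω) hβ hsD ha hne hw hw2 hμ
    (ENNReal.tendsto_atTop_zero_of_tsum_ne_top hq.ne) ?_
  intro n t hnt
  have h6 := hPT β (S.T ω) n t (φ ω n)
    (fun v => ind (Real.exp (-a * n) < ‖S.D ω v t - S.D ω (anc (S.T ω) n v) n‖)) hβ hne hnt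
    (fun v hv v' hv' hvv => path_UM hSYS S ω hs hs1 hnt hv hv' hvv)
  refine h6.trans (le_of_eq ?_)
  simp only [hQ]
  congr 1
  apply tsum_congr
  intro j
  congr 1
  simp only [hW1, hW2]
  rw [mul_left_comm (ind (j = n)), mul_left_comm (ENNReal.ofReal (Real.exp (s * a * n))), ← mul_add]
  congr 1
  rw [← ENNReal.tsum_mul_left, ← ENNReal.tsum_mul_left, ← ENNReal.tsum_add]
  apply tsum_congr
  intro u
  simp only [hφ]
  ring

theorem mUM (hE3D : St_E3D) (hPT : St_PT) (hSYS : St_SYS) (hMSYS : St_MSYS) (hOSC : St_OSC)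
    (hM21 : St_M21) (hSUM3 : St_SUM3) (hWT : St_WT) (hCNT : St_CNT) (hPOS : St_POS) : St_UM := by
  intro Ω _ P _ β lam hβ hlam S
  have hc : 0 < 2 * lam + 1 := by linarith
  have h1 : ∀ᵐ ω ∂P, ∀ r : ℚ, 2 * β / (2 * lam + 1) < (r : ℝ) → ∀ μ : Measure ℂ,
      IsLim (S.T ω) (S.D ω) μ → dimM μ ≤ ENNReal.ofReal (r : ℝ) := by
    rw [ae_all_iff]
    intro r
    by_cases hr : 2 * β / (2 * lam + 1) < (r : ℝ)
    · have hr0 : 0 < (r : ℝ) := lt_trans (by positivity) hr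
      rw [div_lt_iff₀ hc] at hr
      filter_upwards [ae_UM hE3D hPT hSYS hMSYS hOSC hM21 hSUM3 hWT hCNT hPOS Ω P β lam hβ hlam S r
        hr0 (by linarith)] with ω hω _ using hω
    · exact Eventually.of_forall fun ω h => absurd h hr
  filter_upwards [h1] with ω hω μ hμ
  by_contra hcon
  rw [not_le, ENNReal.lt_iff_exists_rat_btwn] at hcon
  obtain ⟨r, hr0, hr1, hr2⟩ := hcon
  have h2 : 2 * β / (2 * lam + 1) < (r : ℝ) :=
    (ENNReal.ofReal_lt_ofReal_iff_of_nonneg (by positivity)).1 hr1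
  exact absurd (hω r h2 μ hμ) (not_le.2 hr2)

end Pool.Agent.helper9.HB
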