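import Pool.Agent.helper23.HB.Stmts

/-!
# Hyperbolic branching Brownian motion : tools for E5 and UM

pathwise bounds along a line and expectations of weighted sums over the tree.
-/

open MeasureTheory ProbabilityTheory Set Filter Topology
open scoped ENNReal NNReal

namespace Pool.Agent.helper9.HB
open Pool.Agent.helper23.HB

/-! ## pathwise -/

theorem blk_anc {τ : Lab → ℝ} (h : ∀ u, 0 < τ u) (b : Lab → Pth) {v' : Lab} {j k : ℕ}
    (hv : (j : ℝ) + 1 < death τ v') (hk : k ≤ j) :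
    blk 1 (line τ b (anc τ ((j : ℝ) + 1) v')) k = blk 1 (line τ b v') k := by
  have hd := lt_death_anc hv
  obtain ⟨p, hp⟩ := anc_suffix τ ((j : ℝ) + 1) v'
  have hkj : (k : ℝ) ≤ j := by exact_mod_cast hk
  have key : ∀ t : ℝ, t ≤ (j : ℝ) + 1 →
      line τ b (anc τ ((j : ℝ) + 1) v') t = line τ b v' t := by
    intro t ht
    conv_rhs => rw [← hp]
    exact (line_old_append h b p _ (ht.trans hd.le)).symm
  unfold blk
  have e1 : line τ b (anc τ ((j : ℝ) + 1) v') ((k : ℝ) * 1) = line τ b v' ((k : ℝ) * 1) :=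
    key _ (by linarith)
  have e2 : line τ b (anc τ ((j : ℝ) + 1) v') ((k : ℝ) * 1 + 1) =
      line τ b v' ((k : ℝ) * 1 + 1) := key _ (by linarith)
  have e3 : ∀ r : Icc (0 : ℝ) 1, line τ b (anc τ ((j : ℝ) + 1) v') ((k : ℝ) * 1 + r) =
      line τ b v' ((k : ℝ) * 1 + r) := fun r => key _ (by have := r.2.2; linarith)
  rw [e1, e2]
  simp_rw [e3]

theorem anc_last {τ : Lab → ℝ} (h : ∀ u, 0 < τ u) {s : ℝ} {v : Lab} (hv : v ∈ Alive τ s) :
    anc τ s v = v := anc_of_suffix h hv List.suffix_rfl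

section
variable {Ω : Type} [MeasurableSpace Ω] {P : Measure Ω} [IsProbabilityMeasure P] {β lam : ℝ}

theorem path_step (hSYS : St_SYS) (S : Sys β lam P) (ω : Ω) {v' : Lab} {j : ℕ} {r : ℝ}
    (hv : (j : ℝ) + 1 < death (S.T ω) v') (h0 : 0 ≤ r) (h1 : r ≤ 1) :
    ‖S.D ω v' (j + r) - S.D ω v' j‖ ≤ S.osc ω (anc (S.T ω) ((j : ℝ) + 1) v') j := by
  obtain ⟨hrad, -, hD, -, -, -, -, hosc, -⟩ := hSYS Ω P β lam S
  have hpos := (hrad ω).pos
  have hd := lt_death_anc hv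
  obtain ⟨p, hp⟩ := anc_suffix (S.T ω) ((j : ℝ) + 1) v'
  have key : ∀ t : ℝ, 0 ≤ t → t ≤ (j : ℝ) + 1 →
      S.D ω v' t = S.D ω (anc (S.T ω) ((j : ℝ) + 1) v') t := by
    intro t ht0 ht
    conv_lhs => rw [← hp]
    exact old_append hpos (f := fun u t => S.D ω u t) (hD ω) p _ ht0 (ht.trans hd.le)
  rw [key _ (by positivity) (by linarith), key _ (by positivity) (by linarith)]
  exact hosc ω _ j r h0 h1

theorem path_D (hSYS : St_SYS) (S : Sys β lam P) (ω : Ω) {m : ℕ} {t : ℝ} (hmt : (m : ℝ) ≤ t)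
    {v v' : Lab} (hv : v ∈ Alive (S.T ω) t) (hv' : v' ∈ Alive (S.T ω) ((⌊t⌋₊ : ℝ) + 1))
    (hvv : v <:+ v') :
    ‖S.D ω v t - S.D ω (anc (S.T ω) m v) m‖ ≤
      ∑ j ∈ Finset.Icc m ⌊t⌋₊, S.osc ω (anc (S.T ω) ((j : ℝ) + 1) v') j := by
  obtain ⟨hrad, -, hD, -, -, -, -, hosc, -⟩ := hSYS Ω P β lam S
  have hpos := (hrad ω).pos
  have ht0 : 0 ≤ t := (Nat.cast_nonneg m).trans hmt
  set J := ⌊t⌋₊ with hJ
  have hJt : (J : ℝ) ≤ t := Nat.floor_le ht0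
  have htJ : t < (J : ℝ) + 1 := Nat.lt_floor_add_one t
  have hmJ : m ≤ J := Nat.le_floor hmt
  have e1 : S.D ω v t = S.D ω v' t := by
    obtain ⟨p, rfl⟩ := hvv
    exact (old_append hpos (f := fun u t => S.D ω u t) (hD ω) p v ht0 hv.2.le).symm
  have e2 : S.D ω (anc (S.T ω) m v) m = S.D ω v' m := by
    have hd : (m : ℝ) < death (S.T ω) (anc (S.T ω) m v) := lt_death_anc (hmt.trans_lt hv.2)
    obtain ⟨p, hp⟩ := (anc_suffix (S.T ω) m v).trans hvv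
    conv_rhs => rw [← hp]
    exact (old_append hpos (f := fun u t => S.D ω u t) (hD ω) p _ (Nat.cast_nonneg m) hd.le).symm
  have hstep : ∀ (j : ℕ) (r : ℝ), j ≤ J → 0 ≤ r → r ≤ 1 →
      ‖S.D ω v' (j + r) - S.D ω v' j‖ ≤ S.osc ω (anc (S.T ω) ((j : ℝ) + 1) v') j := by
    intro j r hj h0 h1
    refine path_step hSYS S ω (lt_of_le_of_lt ?_ hv'.2) h0 h1
    have : (j : ℝ) ≤ J := by exact_mod_cast hj
    linarith
  have hind : ∀ i : ℕ, m ≤ i → i ≤ J → ‖S.D ω v' i - S.D ω v' m‖ ≤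
      ∑ j ∈ Finset.Ico m i, S.osc ω (anc (S.T ω) ((j : ℝ) + 1) v') j := by
    intro i hi
    induction i, hi using Nat.le_induction with
    | base => intro _; simp
    | succ i hi ih =>
      intro hiJ
      rw [Finset.sum_Ico_succ_top hi]
      have h1 := hstep i 1 (by omega) zero_le_one le_rfl
      have h2 := ih (by omega)
      calc ‖S.D ω v' ((i + 1 : ℕ) : ℝ) - S.D ω v' m‖
          = ‖(S.D ω v' i - S.D ω v' m) + (S.D ω v' ((i : ℝ) + 1) - S.D ω v' i)‖ := by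
            push_cast; ring_nf
        _ ≤ _ := (norm_add_le _ _).trans (add_le_add h2 h1)
  rw [e1, e2]
  have h1 := hind J hmJ le_rfl
  have h2 := hstep J (t - J) le_rfl (by linarith) (by linarith)
  rw [show Finset.Icc m J = Finset.Ico m (J + 1) from rfl, Finset.sum_Ico_succ_top hmJ]
  calc ‖S.D ω v' t - S.D ω v' m‖
      = ‖(S.D ω v' J - S.D ω v' m) + (S.D ω v' ((J : ℝ) + (t - J)) - S.D ω v' J)‖ := by
        rw [show (J : ℝ) + (t - J) = t by ring]; ring_nf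
    _ ≤ _ := (norm_add_le _ _).trans (add_le_add h1 h2)

theorem path_Z (hSYS : St_SYS) (hRAD : St_RAD) (hlam : -1 / 2 < lam) (S : Sys β lam P) (ω : Ω)
    {t : ℝ} (ht0 : 0 ≤ t) {v v' : Lab} (hv : v ∈ Alive (S.T ω) t) (hvv : v <:+ v') :
    ‖S.Z ω v t - S.D ω v t‖ ≤ 1 ∧
    ‖S.Z ω v t - S.D ω v t‖ ≤ 2 * Real.exp (-(Yk (lam + 1 / 2)
      (blk 1 (line (S.T ω) (S.B ω) v')) ⌊t⌋₊ - (blk 1 (line (S.T ω) (S.B ω) v') ⌊t⌋₊).2)) := by
  obtain ⟨hrad, -, hD, hZ, -, -, hZD, hosc, -⟩ := hSYS Ω P β lam S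
  have hpos := (hrad ω).pos
  have hJt : (⌊t⌋₊ : ℝ) ≤ t := Nat.floor_le ht0
  have htJ : t < (⌊t⌋₊ : ℝ) + 1 := Nat.lt_floor_add_one t
  have e1 : S.D ω v t = S.D ω v' t := by
    obtain ⟨p, rfl⟩ := hvv
    exact (old_append hpos (f := fun u t => S.D ω u t) (hD ω) p v ht0 hv.2.le).symm
  have e2 : S.Z ω v t = S.Z ω v' t := by
    obtain ⟨p, rfl⟩ := hvv
    exact (old_append hpos (f := fun u t => S.Z ω u t) (hZ ω) p v ht0 hv.2.le).symm
  rw [e1, e2]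
  obtain ⟨a1, a2, a3⟩ := hZD ω v' t ht0
  refine ⟨by rw [a2]; have := norm_nonneg (S.Z ω v' t); linarith, a3.trans ?_⟩
  have h1 := (hRAD lam _ _ (by linarith) (line_continuous (S.T ω) (S.B ω) v')
    ((hrad ω).rad v') ⌊t⌋₊).2 (t - ⌊t⌋₊) (by linarith) (by linarith)
  rw [show (⌊t⌋₊ : ℝ) + (t - ⌊t⌋₊) = t by ring] at h1
  have h2 := Real.exp_le_exp.2 (neg_le_neg h1)
  linarith

/-! ## expectations -/

theorem measTB (S : Sys β lam P) : Measurable fun ω => (S.T ω, S.B ω) :=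
  (measurable_pi_lambda _ S.life.meas).prodMk (measurable_pi_lambda _ S.noiseB.meas)

theorem meas_ind_wt (u : Lab) (t : ℝ) :
    Measurable fun τ : Lab → ℝ => ind (u ∈ Alive τ t) * wt β τ u :=
  (measurable_ind (measurableSet_Alive_left u t)).mul (measurable_wt β u)

theorem exp_M21 (hM21 : St_M21) (hWT : St_WT) (hβ : 0 < β) (S : Sys β lam P) :
    ∃ C : ℝ≥0∞, C ≠ ∞ ∧ ∀ (j : ℕ) (F : (ℕ → ℝ × ℝ) → ℝ≥0∞), Measurable F →
      ∫⁻ ω, ENNReal.ofReal (Real.exp (-β * ((j : ℝ) + 1))) *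
          ∑' u : Lab, ind (u ∈ Alive (S.T ω) ((j : ℝ) + 1)) *
            F (blk 1 (line (S.T ω) (S.B ω) u)) * wt β (S.T ω) u ∂P ≤
        C * ∫⁻ ω, F (blk 1 (S.B ω [])) ∂P := by
  obtain ⟨C, hC, hC2⟩ := hWT Ω P β S.T hβ S.life
  refine ⟨C, hC, fun j F hF => ?_⟩
  have hm : ∀ u : Lab, Measurable fun ω => ind (u ∈ Alive (S.T ω) ((j : ℝ) + 1)) *
      F (blk 1 (line (S.T ω) (S.B ω) u)) * wt β (S.T ω) u := by
    intro u
    have h1 : Measurable fun ω => F (blk 1 (line (S.T ω) (S.B ω) u)) :=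
      hF.comp ((measurable_blk_line 1 u).comp (measTB S))
    have hT : Measurable S.T := measurable_pi_lambda _ S.life.meas
    exact (((measurable_ind (measurableSet_Alive_left u _)).comp hT).mul h1).mul
      ((measurable_wt β u).comp hT)
  rw [lintegral_const_mul _ (Measurable.tsum hm), lintegral_tsum fun u => (hm u).aemeasurable]
  have h2 : ∀ u : Lab, ∫⁻ ω, ind (u ∈ Alive (S.T ω) ((j : ℝ) + 1)) *
      F (blk 1 (line (S.T ω) (S.B ω) u)) * wt β (S.T ω) u ∂P =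
      (∫⁻ ω, ind (u ∈ Alive (S.T ω) ((j : ℝ) + 1)) * wt β (S.T ω) u ∂P) *
        ∫⁻ ω, F (blk 1 (S.B ω [])) ∂P := by
    intro u
    rw [← hM21 Ω P S.T S.B S.life.meas S.life.pos S.noiseB S.indepTB u 1 one_pos
      (fun τ => ind (u ∈ Alive τ ((j : ℝ) + 1)) * wt β τ u) F (meas_ind_wt u _) hF]
    apply lintegral_congr
    intro ω
    ring
  simp_rw [h2]
  rw [ENNReal.tsum_mul_right]
  calc ENNReal.ofReal (Real.exp (-β * ((j : ℝ) + 1))) *
        ((∑' u : Lab, ∫⁻ ω, ind (u ∈ Alive (S.T ω) ((j : ℝ) + 1)) * wt β (S.T ω) u ∂P) *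
          ∫⁻ ω, F (blk 1 (S.B ω [])) ∂P)
      ≤ ENNReal.ofReal (Real.exp (-β * ((j : ℝ) + 1))) *
        ((C * ENNReal.ofReal (Real.exp (β * ((j : ℝ) + 1)))) *
          ∫⁻ ω, F (blk 1 (S.B ω [])) ∂P) := by
        gcongr
        exact hC2 ((j : ℝ) + 1) (by positivity)
    _ = C * (ENNReal.ofReal (Real.exp (-β * ((j : ℝ) + 1))) *
          ENNReal.ofReal (Real.exp (β * ((j : ℝ) + 1)))) *
          ∫⁻ ω, F (blk 1 (S.B ω [])) ∂P := by ring
    _ = C * ∫⁻ ω, F (blk 1 (S.B ω [])) ∂P := by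
        rw [← ENNReal.ofReal_mul (Real.exp_pos _).le, ← Real.exp_add]
        simp

theorem exp_OSC (hOSC : St_OSC) (hMSYS : St_MSYS) (hWT : St_WT) (hβ : 0 < β)
    (hlam : -1 / 2 < lam) (S : Sys β lam P) {s : ℝ} (hs : 0 < s) (hs1 : s ≤ 1) :
    ∃ C : ℝ≥0∞, C ≠ ∞ ∧ ∀ (j : ℕ) (G : (ℕ → ℝ × ℝ) → ℝ≥0∞), Measurable G →
      ∫⁻ ω, ENNReal.ofReal (Real.exp (-β * ((j : ℝ) + 1))) *
          ∑' u : Lab, ind (u ∈ Alive (S.T ω) ((j : ℝ) + 1)) *
            (G (blk 1 (line (S.T ω) (S.B ω) u)) * ENNReal.ofReal (S.osc ω u j) ^ s) *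
              wt β (S.T ω) u ∂P ≤
        C * ∫⁻ ω, G (blk 1 (S.B ω [])) * ENNReal.ofReal (Real.exp
          (-s * (Yk (lam + 1 / 2) (blk 1 (S.B ω [])) j - (blk 1 (S.B ω []) j).2))) ∂P := by
  obtain ⟨C, hC, hC2⟩ := hWT Ω P β S.T hβ S.life
  obtain ⟨C', hC', hC2'⟩ := hOSC s hs hs1
  refine ⟨C * C', ENNReal.mul_ne_top hC hC', fun j G hG => ?_⟩
  have hosc := (hMSYS Ω P β lam S).2.2.2.2.2
  have hT : Measurable S.T := measurable_pi_lambda _ S.life.meas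
  have hm : ∀ u : Lab, Measurable fun ω => ind (u ∈ Alive (S.T ω) ((j : ℝ) + 1)) *
      (G (blk 1 (line (S.T ω) (S.B ω) u)) * ENNReal.ofReal (S.osc ω u j) ^ s) *
        wt β (S.T ω) u := by
    intro u
    have h1 : Measurable fun ω => G (blk 1 (line (S.T ω) (S.B ω) u)) :=
      hG.comp ((measurable_blk_line 1 u).comp (measTB S))
    have h2 : Measurable fun ω => ENNReal.ofReal (S.osc ω u j) ^ s :=
      (hosc u j).ennreal_ofReal.pow_const s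
    exact (((measurable_ind (measurableSet_Alive_left u _)).comp hT).mul (h1.mul h2)).mul
      ((measurable_wt β u).comp hT)
  rw [lintegral_const_mul _ (Measurable.tsum hm), lintegral_tsum fun u => (hm u).aemeasurable]
  set I := ∫⁻ ω, G (blk 1 (S.B ω [])) * ENNReal.ofReal (Real.exp
          (-s * (Yk (lam + 1 / 2) (blk 1 (S.B ω [])) j - (blk 1 (S.B ω []) j).2))) ∂P with hI
  have h2 : ∀ u : Lab, ∫⁻ ω, ind (u ∈ Alive (S.T ω) ((j : ℝ) + 1)) *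
      (G (blk 1 (line (S.T ω) (S.B ω) u)) * ENNReal.ofReal (S.osc ω u j) ^ s) *
        wt β (S.T ω) u ∂P ≤
      C' * (∫⁻ ω, ind (u ∈ Alive (S.T ω) ((j : ℝ) + 1)) * wt β (S.T ω) u ∂P) * I := by
    intro u
    have h3 := hC2' Ω P β lam hlam S u j
      (fun τ => ind (u ∈ Alive τ ((j : ℝ) + 1)) * wt β τ u) G (meas_ind_wt u _) hG
    refine le_trans (le_of_eq ?_) h3
    apply lintegral_congr
    intro ω
    ring
  calc ENNReal.ofReal (Real.exp (-β * ((j : ℝ) + 1))) * _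
      ≤ ENNReal.ofReal (Real.exp (-β * ((j : ℝ) + 1))) * ∑' u : Lab, C' *
        (∫⁻ ω, ind (u ∈ Alive (S.T ω) ((j : ℝ) + 1)) * wt β (S.T ω) u ∂P) * I := by
        gcongr with u
        exact h2 u
    _ = ENNReal.ofReal (Real.exp (-β * ((j : ℝ) + 1))) * (C' *
        (∑' u : Lab, ∫⁻ ω, ind (u ∈ Alive (S.T ω) ((j : ℝ) + 1)) * wt β (S.T ω) u ∂P) * I) := by
        rw [ENNReal.tsum_mul_right, ENNReal.tsum_mul_left]
    _ ≤ ENNReal.ofReal (Real.exp (-β * ((j : ℝ) + 1))) *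
        (C' * (C * ENNReal.ofReal (Real.exp (β * ((j : ℝ) + 1)))) * I) := by
        gcongr
        exact hC2 ((j : ℝ) + 1) (by positivity)
    _ = C * C' * (ENNReal.ofReal (Real.exp (-β * ((j : ℝ) + 1))) *
          ENNReal.ofReal (Real.exp (β * ((j : ℝ) + 1)))) * I := by ring
    _ = C * C' * I := by
        rw [← ENNReal.ofReal_mul (Real.exp_pos _).le, ← Real.exp_add]
        simp

end

end Pool.Agent.helper9.HB
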